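import Pool.Agent.Q183.UE.Defs

/-!
Solutions of linear recurrences with constant coefficients over algebraically closed fields of
characteristic zero.
-/

set_option autoImplicit false

namespace Pool.Agent.Q183.UE

open Polynomial

variable {K : Type} [Field K]

/-- the shift of sequences -/
def sh (K : Type) [Field K] : (ℕ → K) →ₐ[K] (ℕ → K) where
  toFun f := fun t => f (t + 1)
  map_one' := rfl
  map_mul' _ _ := rfl
  map_zero' := rfl
  map_add' _ _ := rfl
  commutes' _ := rfl

theorem sh_apply (f : ℕ → K) (t : ℕ) : sh K f t = f (t + 1) := rfl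

theorem sh_pow (n : ℕ) (f : ℕ → K) (t : ℕ) : (((sh K).toLinearMap : Module.End K (ℕ → K)) ^ n) f t =
    f (t + n) := by
  induction n generalizing f t with
  | zero => rfl
  | succ n ih =>
    rw [pow_succ', Module.End.mul_apply]
    change (((sh K).toLinearMap : Module.End K (ℕ → K)) ^ n) f (t + 1) = _
    rw [ih]
    congr 1
    omega

theorem aeval_sh (p : K[X]) (f : ℕ → K) (t : ℕ) :
    aeval ((sh K).toLinearMap : Module.End K (ℕ → K)) p f t =
      ∑ k ∈ Finset.range (p.natDegree + 1), p.coeff k * f (t + k) := by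
  rw [aeval_eq_sum_range, LinearMap.sum_apply, Finset.sum_apply]
  refine Finset.sum_congr rfl fun k _ => ?_
  rw [LinearMap.smul_apply, Pi.smul_apply, sh_pow, smul_eq_mul]

/-- solving a difference equation for polynomials -/
theorem solve [CharZero K] {μ : K} (ν : K) (hμ : μ ≠ 0) : ∀ (n : ℕ) (P : K[X]),
    (∀ m, n ≤ m → P.coeff m = 0) → ∃ Q : K[X], (∀ m, n + 1 ≤ m → Q.coeff m = 0) ∧
      C μ * Q.comp (X + 1) - C ν * Q = P := by
  intro n
  induction n with
  | zero =>
    intro P hP
    refine ⟨0, fun m _ => coeff_zero m, ?_⟩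
    have h0 : P = 0 := by
      ext m
      rw [hP m (Nat.zero_le m), coeff_zero]
    rw [h0, zero_comp, mul_zero, mul_zero, sub_zero]
  | succ n ih =>
    intro P hP
    set c := P.coeff n with hc
    have hcc : ∀ (a b : K) (k m : ℕ), (C μ * (C a * X ^ k).comp (X + 1) - C ν * (C a * X ^ k)).coeff m =
        μ * a * (k.choose m) - ν * a * (if m = k then 1 else 0) := by
      intro a b k m
      have h1 : (C a * X ^ k : K[X]).comp (X + 1) = C a * (X + 1) ^ k := by
        rw [mul_comp, C_comp, pow_comp, X_comp]
      rw [h1, coeff_sub, coeff_C_mul, coeff_C_mul, coeff_C_mul, coeff_C_mul,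
        Polynomial.coeff_X_add_one_pow, coeff_X_pow]
      ring
    by_cases hμν : μ = ν
    · subst hμν
      have hn1 : ((n : K) + 1) ≠ 0 := by exact_mod_cast Nat.succ_ne_zero n
      set a : K := c / (μ * (n + 1)) with ha
      set Q0 : K[X] := C a * X ^ (n + 1) with hQ0
      obtain ⟨Q1, h1, h2⟩ := ih (P - (C μ * Q0.comp (X + 1) - C μ * Q0)) (by
        intro m hm
        rw [coeff_sub, hcc a 0]
        rcases Nat.lt_or_ge m (n + 1) with h3 | h3
        · have h4 : m = n := by omega
          subst h4
          rw [if_neg (by omega), Nat.choose_succ_self_right]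
          push_cast
          rw [← hc, ha]
          field_simp
          ring
        · rw [hP m h3]
          rcases Nat.lt_or_ge (n + 1) m with h4 | h4
          · rw [Nat.choose_eq_zero_of_lt h4, if_neg (by omega)]
            push_cast
            ring
          · have h5 : m = n + 1 := by omega
            subst h5
            rw [Nat.choose_self, if_pos rfl]
            push_cast
            ring)
      refine ⟨Q0 + Q1, fun m hm => ?_, ?_⟩
      · rw [coeff_add, h1 m (by omega), hQ0, coeff_C_mul, coeff_X_pow, if_neg (by omega)]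
        ring
      · rw [add_comp, mul_add, mul_add]
        linear_combination h2
    · have hd : μ - ν ≠ 0 := sub_ne_zero.2 hμν
      set a : K := c / (μ - ν) with ha
      set Q0 : K[X] := C a * X ^ n with hQ0
      obtain ⟨Q1, h1, h2⟩ := ih (P - (C μ * Q0.comp (X + 1) - C ν * Q0)) (by
        intro m hm
        rw [coeff_sub, hcc a 0]
        rcases Nat.lt_or_ge n m with h3 | h3
        · rw [hP m (by omega), Nat.choose_eq_zero_of_lt h3, if_neg (by omega)]
          push_cast
          ring
        · have h4 : m = n := by omega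
          subst h4
          rw [if_pos rfl, Nat.choose_self]
          push_cast
          rw [← hc, ha]
          field_simp
          ring)
      refine ⟨Q0 + Q1, fun m hm => ?_, ?_⟩
      · rw [coeff_add, h1 m (by omega), hQ0, coeff_C_mul, coeff_X_pow, if_neg (by omega)]
        ring
      · rw [add_comp, mul_add, mul_add]
        linear_combination h2

/-- **Solutions of linear recurrences.** -/
theorem exp_rep' [IsAlgClosed K] [CharZero K] : ∀ (q : ℕ) (p : K[X]) (f : ℕ → K),
    p.natDegree = q → p.coeff 0 ≠ 0 → aeval ((sh K).toLinearMap : Module.End K (ℕ → K)) p f = 0 →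
    ∃ (lam : Fin q → K) (P : Fin q → K[X]), (∀ i, lam i ≠ 0) ∧ (∀ i m, q ≤ m → (P i).coeff m = 0) ∧
      ∀ t : ℕ, f t = ∑ i, (P i).eval (t : K) * lam i ^ t := by
  intro q
  induction q with
  | zero =>
    intro p f hp h0 hf
    refine ⟨fun i => i.elim0, fun i => i.elim0, fun i => i.elim0, fun i => i.elim0, fun t => ?_⟩
    have h1 := congrFun hf t
    rw [aeval_sh, hp] at h1
    simp only [zero_add, Finset.sum_range_one, Nat.add_zero, Pi.zero_apply] at h1
    rw [Finset.univ_eq_empty, Finset.sum_empty]
    exact (mul_eq_zero.1 h1).resolve_left h0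
  | succ q ih =>
    intro p f hp h0 hf
    have hp0 : p ≠ 0 := fun h => h0 (by rw [h, coeff_zero])
    obtain ⟨lam0, hroot⟩ := IsAlgClosed.exists_root p (by
      rw [degree_eq_natDegree hp0, hp]
      exact_mod_cast Nat.succ_ne_zero q)
    obtain ⟨g, hg⟩ := dvd_iff_isRoot.2 hroot
    have hlam0 : lam0 ≠ 0 := by
      intro h
      apply h0
      rw [h, IsRoot.def, ← coeff_zero_eq_eval_zero] at hroot
      exact hroot
    have hg0 : g ≠ 0 := by
      intro h
      rw [h, mul_zero] at hg
      exact hp0 hg
    have hgd : g.natDegree = q := by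
      have h1 := congrArg natDegree hg
      rw [natDegree_mul (X_sub_C_ne_zero lam0) hg0, natDegree_X_sub_C, hp] at h1
      omega
    have hgc : g.coeff 0 ≠ 0 := by
      intro h
      apply h0
      rw [hg, mul_coeff_zero, h, mul_zero]
    set f' : ℕ → K := fun t => f (t + 1) - lam0 * f t with hf'
    have hf1 : aeval ((sh K).toLinearMap : Module.End K (ℕ → K)) (X - C lam0) f = f' := by
      funext t
      rw [map_sub, aeval_X, aeval_C, LinearMap.sub_apply, Pi.sub_apply]
      rfl
    obtain ⟨lam, P, hl, hPd, hP⟩ := ih g f' hgd hgc (by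
      rw [← hf1, ← Module.End.mul_apply, ← map_mul, mul_comm g, ← hg, hf])
    choose Q hQd hQ using fun i => solve lam0 (hl i) q (P i) (hPd i)
    set u : ℕ → K := fun t => f t - ∑ i, (Q i).eval (t : K) * lam i ^ t with hu
    have hstep : ∀ t, u (t + 1) = lam0 * u t := by
      intro t
      have h1 : f (t + 1) = lam0 * f t + f' t := by
        simp only [f']
        ring
      have h2 : ∀ i, (Q i).eval ((t + 1 : ℕ) : K) * lam i ^ (t + 1) =
          lam0 * ((Q i).eval (t : K) * lam i ^ t) + (P i).eval (t : K) * lam i ^ t := by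
        intro i
        have h3 := congrArg (eval (t : K)) (hQ i)
        simp only [eval_sub, eval_mul, eval_C, eval_comp, eval_add, eval_X, eval_one] at h3
        rw [← h3]
        push_cast
        ring
      simp only [u]
      rw [h1, Finset.sum_congr rfl fun i _ => h2 i, Finset.sum_add_distrib, ← Finset.mul_sum, ← hP]
      ring
    have hu0 : ∀ t, u t = u 0 * lam0 ^ t := by
      intro t
      induction t with
      | zero => rw [pow_zero, mul_one]
      | succ t iht => rw [hstep, iht, pow_succ]; ring
    refine ⟨Fin.cons lam0 lam, Fin.cons (C (u 0)) Q, fun i => ?_, fun i m hm => ?_, fun t => ?_⟩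
    · refine Fin.cases ?_ (fun i => ?_) i
      · rw [Fin.cons_zero]
        exact hlam0
      · rw [Fin.cons_succ]
        exact hl i
    · refine Fin.cases ?_ (fun i => ?_) i
      · rw [Fin.cons_zero, coeff_C, if_neg (by omega)]
      · rw [Fin.cons_succ]
        exact hQd i m hm
    · rw [Fin.sum_univ_succ]
      simp only [Fin.cons_zero, Fin.cons_succ, eval_C]
      have h1 : f t = u t + ∑ i, (Q i).eval (t : K) * lam i ^ t := by
        simp only [u]
        ring
      rw [h1, hu0]

theorem CFin.map {L : Type} [Field L] (e : K →+* L) {R l : ℕ} {f : ℕ → K} (h : CFin R l f) :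
    CFin R l fun m => e (f m) := by
  obtain ⟨q, a, hq, h0, h1, h⟩ := h
  refine ⟨q, fun k => e (a k), hq, by rwa [Ne, map_eq_zero], by rwa [Ne, map_eq_zero],
    fun m hm => ?_⟩
  have h2 := congrArg e (h m hm)
  rw [map_sum, map_zero] at h2
  rw [← h2]
  exact Finset.sum_congr rfl fun k _ => (map_mul e _ _).symm

/-- extension to an infinite sequence -/
theorem CFin.extend {R l : ℕ} {f : ℕ → K} (h : CFin R l f) :
    ∃ (q : ℕ) (a : ℕ → K) (g : ℕ → K), q ≤ R ∧ a 0 ≠ 0 ∧ a q ≠ 0 ∧ (∀ m, m < l → g m = f m) ∧
      ∀ m, ∑ k ∈ Finset.range (q + 1), a k * g (m + k) = 0 := by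
  classical
  obtain ⟨q, a, hq, h0, h1, h⟩ := h
  let E : LinearRecurrence K := ⟨q, fun i => - a i / a q⟩
  let g : ℕ → K := E.mkSol fun i => f i
  have hg : ∀ m, g (m + q) = ∑ i : Fin q, (- a i / a q) * g (m + i) := fun m =>
    E.is_sol_mkSol (fun i => f i) m
  have hg' : ∀ m, ∑ k ∈ Finset.range (q + 1), a k * g (m + k) = 0 := by
    intro m
    rw [Finset.sum_range_succ, hg m, Finset.mul_sum, Finset.sum_range (fun k => a k * g (m + k)),
      ← Finset.sum_add_distrib]
    refine Finset.sum_eq_zero fun i _ => ?_
    field_simp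
    ring
  refine ⟨q, a, g, hq, h0, h1, fun m => ?_, hg'⟩
  induction m using Nat.strong_induction_on with
  | _ m ih =>
    intro hm
    rcases Nat.lt_or_ge m q with h2 | h2
    · exact E.mkSol_eq_init (fun i => f i) ⟨m, h2⟩
    · obtain ⟨n, rfl⟩ := Nat.exists_eq_add_of_le' h2
      have h3 := h n hm
      have h4 := hg' n
      rw [Finset.sum_range_succ] at h3 h4
      have h5 : ∑ k ∈ Finset.range q, a k * g (n + k) = ∑ k ∈ Finset.range q, a k * f (n + k) :=
        Finset.sum_congr rfl fun k hk => by
          have := Finset.mem_range.1 hk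
          rw [ih (n + k) (by omega) (by omega)]
      rw [h5] at h4
      exact mul_left_cancel₀ h1 (by linear_combination h4 - h3)

end Pool.Agent.Q183.UE
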