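import Pool.Agent.Q183.UE.Defs

/-!
Definitions: C-pairs.
-/

set_option autoImplicit false

namespace Pool.Agent.Q183.UE

open Polynomial
open scoped LinearAlgebra.Projectivization

variable {N s ν : ℕ}

/-- A map `t ↦ (p 0 (t) : ... : p N (t))` from the multiplicative group over the field `E` to the
projective variety of the forms in `FF`: polynomials without common zeros different from `0`
(`cop`), not constant, for which every `Q i (p)` is the product of a monomial and of the
`e i j`-th powers of polynomials which are not zero. -/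
structure CCur {K : Type} [Field K] (FF : Set (MvPolynomial (Fin (N + 1)) K))
    (Q : Fin s → MvPolynomial (Fin (N + 1)) K) (e : Fin s → Fin ν → ℕ) {E : Type} [Field E]
    [Algebra K E] (p : Fin (N + 1) → E[X]) : Prop where
  zero : ∀ F ∈ FF, MvPolynomial.aeval p F = 0
  cop : ∃ (a : Fin (N + 1) → E[X]) (c : E) (k : ℕ), c ≠ 0 ∧ ∑ j, a j * p j = C c * X ^ k
  orb : ∀ i, ∃ (c : E) (k : ℕ) (g : Fin ν → E[X]), c ≠ 0 ∧ (∀ j, g j ≠ 0) ∧
    MvPolynomial.aeval p (Q i) = C c * X ^ k * ∏ j, g j ^ e i j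
  nc : ∃ i j a b, (p i).coeff a * (p j).coeff b ≠ (p j).coeff a * (p i).coeff b

/-- `P 0, ..., P (l - 1)` are points over the field `L` of the projective variety of the forms in
`FF`, outside of the hypersurfaces `Q i = 0`, with homogeneous coordinates `x` each of which
satisfies a recurrence with constant coefficients of order at most `R` whose first and last
coefficients are not zero, and for suitable sequences `a_j`, `g_j`, each of which satisfies a
recurrence of the same kind, and constants `c, μ` different from zero (not the same each time):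
`∑_j a_j(t) x_j(t) = c μ ^ t` and `Q i (x t) = c μ ^ t ∏_j g_j(t) ^ (e i j)` for all `i` and `t`. -/
def CPts {K : Type} [Field K] (FF : Set (MvPolynomial (Fin (N + 1)) K))
    (Q : Fin s → MvPolynomial (Fin (N + 1)) K) (e : Fin s → Fin ν → ℕ) (L : Type) [Field L]
    [Algebra K L] (R l : ℕ) (P : ℕ → ℙ L (Fin (N + 1) → L)) : Prop :=
  ∃ x : ℕ → Fin (N + 1) → L,
    (∀ t, t < l → ∃ h : x t ≠ 0, P t = Projectivization.mk L (x t) h) ∧
    (∀ t, t < l → ∀ F ∈ FF, MvPolynomial.aeval (x t) F = 0) ∧ (∀ j, CFin R l fun t => x t j) ∧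
    (∃ (c μ : L) (a : ℕ → Fin (N + 1) → L), c ≠ 0 ∧ μ ≠ 0 ∧ (∀ j, CFin R l fun t => a t j) ∧
      ∀ t, t < l → ∑ j, a t j * x t j = c * μ ^ t) ∧
    ∀ i, ∃ (c μ : L) (g : ℕ → Fin ν → L), c ≠ 0 ∧ μ ≠ 0 ∧ (∀ j, CFin R l fun t => g t j) ∧
      ∀ t, t < l → MvPolynomial.aeval (x t) (Q i) ≠ 0 ∧
        MvPolynomial.aeval (x t) (Q i) = c * μ ^ t * ∏ j, g t j ^ e i j

/-- The generic point of the variety of the forms in `FF` is on a curve as in `CCur`, over an
extension field. -/
def CCovered {K : Type} [Field K] (FF : Set (MvPolynomial (Fin (N + 1)) K))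
    (Q : Fin s → MvPolynomial (Fin (N + 1)) K) (e : Fin s → Fin ν → ℕ) : Prop :=
  ∃ (M : Type) (_ : Field M) (_ : Algebra K M) (p : Fin (N + 1) → M[X]),
    CCur FF Q e p ∧ ∀ G : MvPolynomial (Fin (N + 1)) K, (∃ d, G.IsHomogeneous d) →
      MvPolynomial.aeval p G = 0 → G ∈ Ideal.span FF

/-- The ideal `Z` defines an irreducible closed subvariety (over `K`) of the variety of the forms in
`FF`, and its generic point is on a curve as in `CCur`, over a finitely generated extension field. -/
def CRuled {K : Type} [Field K] (FF : Set (MvPolynomial (Fin (N + 1)) K))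
    (Q : Fin s → MvPolynomial (Fin (N + 1)) K) (e : Fin s → Fin ν → ℕ)
    (Z : Ideal (MvPolynomial (Fin (N + 1)) K)) : Prop :=
  Z.IsPrime ∧ (∀ G ∈ Z, ∀ d, MvPolynomial.homogeneousComponent d G ∈ Z) ∧ FF ⊆ Z ∧
    ∃ (M : Type) (_ : Field M) (_ : Algebra K M) (p : Fin (N + 1) → M[X]),
      CCur FF Q e p ∧ (∀ G : MvPolynomial (Fin (N + 1)) K, (∃ d, G.IsHomogeneous d) →
        (G ∈ Z ↔ MvPolynomial.aeval p G = 0)) ∧
      ∃ (ι : Type) (_ : Fintype ι) (v : ι → M), IntermediateField.adjoin K (Set.range v) = ⊤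

/-- Zariski density in the variety of the ideal `Z` of infinite sequences as in `CPts`, of order at
most `R`, with infinitely many members, over finite extensions. -/
def CDense {K : Type} [Field K] (Q : Fin s → MvPolynomial (Fin (N + 1)) K)
    (e : Fin s → Fin ν → ℕ) (Z : Ideal (MvPolynomial (Fin (N + 1)) K)) (R : ℕ) : Prop :=
  ∀ G : MvPolynomial (Fin (N + 1)) K, (∃ d, G.IsHomogeneous d) → G ∉ Z →
    ∃ (L : Type) (_ : Field L) (_ : Algebra K L) (_ : FiniteDimensional K L)
      (P : ℕ → ℙ L (Fin (N + 1) → L)),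
      (∀ l, CPts (forms Z) Q e L R l P) ∧ (∀ t, ¬ OnG G (P t)) ∧ (Set.range P).Infinite

end Pool.Agent.Q183.UE
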