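import Pool.Agent.Q183.UE.Camp

/-!
C-pairs: main theorem.
-/

set_option autoImplicit false

namespace Pool.Agent.Q183.UE

open Polynomial
open scoped LinearAlgebra.Projectivization

variable {N s ν : ℕ}

theorem CPts.mono {K L : Type} [Field K] [Field L] [Algebra K L]
    {FF FF' : Set (MvPolynomial (Fin (N + 1)) K)} {Q : Fin s → MvPolynomial (Fin (N + 1)) K}
    {e : Fin s → Fin ν → ℕ} {R l : ℕ} {P : ℕ → ℙ L (Fin (N + 1) → L)}
    (h : CPts FF Q e L R l P) (hF : FF' ⊆ FF) : CPts FF' Q e L R l P := by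
  obtain ⟨x, h1, h2, h3⟩ := h
  exact ⟨x, h1, fun t ht F hF' => h2 t ht F (hF hF'), h3⟩

/-- the points are outside of the divisors -/
theorem CPts.off {K L : Type} [Field K] [Field L] [Algebra K L]
    {FF : Set (MvPolynomial (Fin (N + 1)) K)} {Q : Fin s → MvPolynomial (Fin (N + 1)) K}
    {e : Fin s → Fin ν → ℕ} {R l : ℕ} {P : ℕ → ℙ L (Fin (N + 1) → L)}
    (hQ : ∀ i, ∃ d, (Q i).IsHomogeneous d)
    (h : CPts FF Q e L R l P) {t : ℕ} (ht : t < l) {Z : Ideal (MvPolynomial (Fin (N + 1)) K)}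
    (hZ : InI Z (P t)) (i : Fin s) : Q i ∉ Z := by
  obtain ⟨x, h1, h2, h3, h4, h5⟩ := h
  obtain ⟨c, μ, g, hc, hμ, hg, h6⟩ := h5 i
  intro hQZ
  obtain ⟨hne, hPt⟩ := h1 t ht
  have h7 := hZ _ hQZ
  rw [hPt] at h7
  exact (h6 t ht).1 ((onG_mk (hQ i) _ hne).1 h7)

/-- density for the curves of the list -/
theorem cdense_of_jcur {K : Type} [Field K] [CharZero K] {n : ℕ}
    {FF : Set (MvPolynomial (Fin (N + 1)) K)} {Q : Fin s → MvPolynomial (Fin (N + 1)) K}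
    {q : Fin s → ℕ} {e : Fin s → Fin ν → ℕ} (hQ : ∀ i, (Q i).IsHomogeneous (q i)) {E : Type}
    [Field E] [Algebra K E] {p : JJ N s ν → E[X]}
    (hp : JCur n (jx N s ν) (FFJ FF Q q e) QJ p)
    (hoff : ∀ i, Q i ∉ Zid (K := K) fun j => p (jx N s ν j)) :
    CDense Q e (Zid (K := K) fun j => p (jx N s ν j)) (n + 1) := by
  classical
  rintro G ⟨d, hd⟩ hG
  set Z := Zid (K := K) fun j => p (jx N s ν j) with hZ
  have hprime : Z.IsPrime := Zid_prime _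
  have hG' : G * ∏ i, Q i ∉ Z := by
    intro h
    rcases hprime.mem_or_mem h with h1 | h1
    · exact hG h1
    · rw [hprime.prod_mem_iff] at h1
      obtain ⟨i, _, hi⟩ := h1
      exact hoff i hi
  have hG'd : (G * ∏ i, Q i).IsHomogeneous (d + ∑ i, q i) :=
    hd.mul (MvPolynomial.IsHomogeneous.prod Finset.univ Q q fun i _ => hQ i)
  have hp1 : JCur n (jx N s ν) (FFJ (forms Z) Q q e) QJ p := by
    refine ⟨hp.deg, ?_, hp.mono, hp.nc⟩
    rintro F (⟨F, ⟨h1, d, hd⟩, rfl⟩ | hF)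
    · rw [ev_ren]
      exact (form_mem_Zid hd).1 h1
    · exact hp.zero F (Or.inr hF)
  obtain ⟨L, iF, iA, iFin, p', hp', hG''⟩ := hp1.spec
    (G := MvPolynomial.rename (jx N s ν) (G * ∏ i, Q i)) (by
    rw [ev_ren]
    intro h0
    exact hG' ((form_mem_Zid hG'd).2 h0))
  have hcz : CharZero L := charZero_of_injective_algebraMap (algebraMap K L).injective
  rw [ev_ren] at hG''
  obtain ⟨x, hne, h1, h2, h3⟩ := jcur_seq hp' hG''
  refine ⟨L, iF, iA, iFin, fun t => Projectivization.mk L (x t) (hne t), h1, fun t h => ?_, h3⟩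
  rw [onG_mk ⟨d, hd⟩] at h
  exact h2 t h

/-- **Recurrences with constant coefficients on C-pairs.** -/
theorem cfull (N D s ν : ℕ) (e : Fin s → Fin ν → ℕ) : ∃ M C R' : ℕ → ℕ, (∀ R, 0 < M R) ∧
    ∀ (K : Type) [Field K] [CharZero K] (FF : Set (MvPolynomial (Fin (N + 1)) K))
      (Q : Fin s → MvPolynomial (Fin (N + 1)) K),
      (∀ F ∈ FF, ∃ e, e ≤ D ∧ F.IsHomogeneous e) → (∀ i, ∃ q, q ≤ D ∧ (Q i).IsHomogeneous q) →
      (∀ R : ℕ, ∃ T : Set (Ideal (MvPolynomial (Fin (N + 1)) K)), T.Finite ∧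
        (∀ Z ∈ T, CRuled FF Q e Z ∧ CDense Q e Z (R' R)) ∧
        ∀ (L : Type) [Field L] [Algebra K L] (l : ℕ) (P : ℕ → ℙ L (Fin (N + 1) → L)),
          CPts FF Q e L R l P →
          (C R ≤ l → ∀ t, t + M R < l → P (t + M R) = P t ∨ ∃ Z ∈ T, InI Z (P t)) ∧
          (P '' {t | t < l ∧ ∀ Z ∈ T, ¬ InI Z (P t)}).encard ≤ C R) ∧
      ((Ideal.span FF).IsPrime →
        [¬ CCovered FF Q e,
        ∀ R : ℕ, ∃ G : MvPolynomial (Fin (N + 1)) K, (∃ d, G.IsHomogeneous d) ∧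
          G ∉ Ideal.span FF ∧
          ∀ (L : Type) [Field L] [Algebra K L] (l : ℕ) (P : ℕ → ℙ L (Fin (N + 1) → L)),
            CPts FF Q e L R l P →
            (C R ≤ l → ∀ t, t + M R < l → P (t + M R) = P t ∨ OnG G (P t)) ∧
            (P '' {t | t < l ∧ ¬ OnG G (P t)}).encard ≤ C R,
        ∀ R : ℕ, ∃ G : MvPolynomial (Fin (N + 1)) K, (∃ d, G.IsHomogeneous d) ∧
          G ∉ Ideal.span FF ∧
          ∀ (L : Type) [Field L] [Algebra K L] [FiniteDimensional K L], ∃ B : ℕ,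
          ∀ (l : ℕ) (P : ℕ → ℙ L (Fin (N + 1) → L)),
            CPts FF Q e L R l P → (P '' {t | t < l ∧ ¬ OnG G (P t)}).encard ≤ B].TFAE) := by
  classical
  set D' : ℕ := D + 2 + (∑ i, ∑ j, e i j) + s with hD'
  obtain ⟨M, n, C, hM, hj⟩ := jlist (jx N s ν) D'
  refine ⟨fun R => M (R + 1), fun R => C (R + 1), fun R => n (R + 1) + 1, fun R => hM _,
    fun K _ _ FF Q hFF hQ => ?_⟩
  choose q hq hQh using hQ
  have hFF' : ∀ F ∈ FFJ (ν := ν) FF Q q e, ∃ d, d ≤ D' ∧ F.IsHomogeneous d := by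
    rintro F (⟨F, hF, rfl⟩ | ⟨i, rfl⟩ | rfl)
    · obtain ⟨d, hd, h⟩ := hFF F hF
      exact ⟨d, by omega, h.rename_isHomogeneous⟩
    · refine ⟨_, ?_, rel_hom hQh e i⟩
      have h1 := hq i
      have h2 : ∑ j, e i j ≤ ∑ i, ∑ j, e i j :=
        Finset.single_le_sum (f := fun i => ∑ j, e i j) (fun _ _ => Nat.zero_le _)
          (Finset.mem_univ i)
      omega
    · exact ⟨2, by omega, relc_hom⟩
  have hlist : ∀ R : ℕ, ∃ T : Set (Ideal (MvPolynomial (Fin (N + 1)) K)), T.Finite ∧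
        (∀ Z ∈ T, CRuled FF Q e Z ∧ CDense Q e Z (n (R + 1) + 1)) ∧
        ∀ (L : Type) [Field L] [Algebra K L] (l : ℕ) (P : ℕ → ℙ L (Fin (N + 1) → L)),
          CPts FF Q e L R l P →
          (C (R + 1) ≤ l → ∀ t, t + M (R + 1) < l → P (t + M (R + 1)) = P t ∨
            ∃ Z ∈ T, InI Z (P t)) ∧
          (P '' {t | t < l ∧ ∀ Z ∈ T, ¬ InI Z (P t)}).encard ≤ C (R + 1) := by
    intro R
    obtain ⟨T, hT, hT1, hT2⟩ := hj K (FFJ FF Q q e) QJ hFF' ⟨_, by omega, QJ_hom⟩ (R + 1)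
    refine ⟨{Z | Z ∈ T ∧ ∀ i, Q i ∉ Z}, hT.subset fun Z hZ => hZ.1, ?_, ?_⟩
    · rintro Z ⟨hZ, hoff⟩
      obtain ⟨M', iF, iA, p, hp, rfl, hfg⟩ := hT1 Z hZ
      have hoff' : ∀ i, MvPolynomial.aeval (fun j => p (jx N s ν j)) (Q i) ≠ 0 := fun i h0 =>
        hoff i ((form_mem_Zid (hQh i)).2 h0)
      have hc := jcur_ccur hp hoff'
      refine ⟨⟨Zid_prime _, fun G hG d => Zid_hom hG d, fun F hF => ?_, M', iF, iA, _, hc,
        fun G ⟨d, hd⟩ => form_mem_Zid hd, hfg⟩, cdense_of_jcur hQh hp hoff⟩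
      obtain ⟨d, _, hd⟩ := hFF F hF
      exact (form_mem_Zid hd).2 (hc.zero F hF)
    · intro L _ _ l P hP
      have h1 := hT2 L l P (cpts_jpts hP)
      refine ⟨fun hl t ht => ?_, le_trans (Set.encard_le_encard (Set.image_mono ?_)) h1.card⟩
      · rcases h1.per hl t ht with h2 | ⟨Z, hZ, h2⟩
        · exact Or.inl h2
        · exact Or.inr ⟨Z, ⟨hZ, hP.off (fun i => ⟨_, hQh i⟩) (by omega) h2⟩, h2⟩
      · rintro t ⟨ht, h2⟩
        exact ⟨ht, fun Z hZ h3 => h2 Z ⟨hZ, hP.off (fun i => ⟨_, hQh i⟩) ht h3⟩ h3⟩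
  refine ⟨hlist, fun hprime => ?_⟩
  tfae_have 1 → 2 := by
    intro h R
    obtain ⟨T, hT, hT1, hT3⟩ := hlist R
    have hex : ∀ Z ∈ T, ∃ G ∈ forms Z, G ∉ Ideal.span FF := by
      intro Z hZ
      obtain ⟨⟨_, _, _, M', iF, iA, p, hp, hgen, _⟩, _⟩ := hT1 Z hZ
      by_contra hcon
      push Not at hcon
      exact h ⟨M', iF, iA, p, hp, fun G hGd hG => hcon G ⟨(hgen G hGd).2 hG, hGd⟩⟩
    choose! f hf hfF using hex
    choose! d hd using fun Z (hZ : Z ∈ T) => (hf Z hZ).2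
    let G : MvPolynomial (Fin (N + 1)) K := ∏ Z ∈ hT.toFinset, f Z
    have hGd : G.IsHomogeneous (∑ Z ∈ hT.toFinset, d Z) :=
      MvPolynomial.IsHomogeneous.prod _ _ _ fun Z hZ => hd Z (hT.mem_toFinset.1 hZ)
    have hin : ∀ {L : Type} [Field L] [Algebra K L] (P : ℙ L (Fin (N + 1) → L)),
        (∃ Z ∈ T, InI Z P) → OnG G P := by
      rintro L _ _ P ⟨Z, hZ, hP⟩
      unfold OnG
      simp only [G]
      rw [map_prod]
      exact Finset.prod_eq_zero (hT.mem_toFinset.2 hZ) (hP _ (hf Z hZ).1)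
    refine ⟨G, ⟨_, hGd⟩, ?_, fun L _ _ l P hP => ⟨fun hl t ht => ?_, ?_⟩⟩
    · simp only [G]
      rw [hprime.prod_mem_iff]
      push Not
      exact fun Z hZ => hfF Z (hT.mem_toFinset.1 hZ)
    · rcases (hT3 L l P hP).1 hl t ht with h1 | h1
      · exact Or.inl h1
      · exact Or.inr (hin _ h1)
    · refine le_trans (Set.encard_le_encard (Set.image_mono ?_)) (hT3 L l P hP).2
      rintro t ⟨h1, h2⟩
      exact ⟨h1, fun Z hZ h3 => h2 (hin _ ⟨Z, hZ, h3⟩)⟩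
  tfae_have 2 → 3 := by
    intro h R
    obtain ⟨G, hG1, hG2, hG3⟩ := h R
    exact ⟨G, hG1, hG2, fun L _ _ _ => ⟨C (R + 1), fun l P hP => (hG3 L l P hP).2⟩⟩
  tfae_have 3 → 1 := by
    rintro h ⟨M', iF, iA, p, hp, hgen⟩
    obtain ⟨n', p', hp'p, hp'⟩ := ccur_jcur (q := q) hp
    have hpp : (fun j => p' (jx N s ν j)) = p := funext hp'p
    have hoff : ∀ i, Q i ∉ Zid (K := K) fun j => p' (jx N s ν j) := by
      intro i h0
      rw [hpp, form_mem_Zid (hQh i)] at h0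
      obtain ⟨c, k, g, hc, hg, h1⟩ := hp.orb i
      rw [h0] at h1
      exact mul_ne_zero (mul_ne_zero (C_ne_zero.2 hc) (pow_ne_zero _ X_ne_zero))
        (Finset.prod_ne_zero_iff.2 fun j _ => pow_ne_zero _ (hg j)) h1.symm
    have hdense := cdense_of_jcur hQh hp' hoff
    obtain ⟨G, ⟨d, hd⟩, hG2, hG3⟩ := h (n' + 1)
    obtain ⟨L, iF', iA', iFin, P, h1, h2, h3⟩ := hdense G ⟨d, hd⟩ (fun h0 => by
      rw [hpp, form_mem_Zid hd] at h0
      exact hG2 (hgen G ⟨d, hd⟩ h0))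
    obtain ⟨B, hB⟩ := hG3 L
    obtain ⟨l, hl⟩ := not_bounded h2 h3 B
    refine hl (hB l P ((h1 l).mono fun F hF => ?_))
    obtain ⟨e, _, he⟩ := hFF F hF
    refine ⟨?_, e, he⟩
    rw [hpp, form_mem_Zid he]
    exact hp.zero F hF
  tfae_finish

end Pool.Agent.Q183.UE
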