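import Pool.Agent.Q183.UE.JCur
import Pool.Agent.Q183.UH.Thm

/-!
Sequences of points which lift to sequences on an auxiliary variety: the list of the subvarieties
which contain them, and the converse.
-/

set_option autoImplicit false

namespace Pool.Agent.Q183.UE

open Polynomial Filter Pool.Agent.Q183.UH
open scoped LinearAlgebra.Projectivization

variable {N : ℕ} {J : Type}

/-- Sequences of points `P 0, ..., P (l - 1)` which lift to sequences with recurrences. -/
def JPts (φ : Fin (N + 1) → J) {K : Type} [Field K] (FF : Set (MvPolynomial J K))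
    (Q : MvPolynomial J K) (L : Type) [Field L] [Algebra K L] (R l : ℕ)
    (P : ℕ → ℙ L (Fin (N + 1) → L)) : Prop :=
  ∃ y : ℕ → J → L,
    (∀ t, t < l → ∃ h : (fun i => y t (φ i)) ≠ 0, P t = Projectivization.mk L _ h) ∧
    (∀ t, t < l → ∀ F ∈ FF, MvPolynomial.aeval (y t) F = 0) ∧ (∀ j, CFin R l fun t => y t j) ∧
    ∃ (c μ : L), c ≠ 0 ∧ μ ≠ 0 ∧ ∀ t, t < l → MvPolynomial.aeval (y t) Q = c * μ ^ t

/-- the values of a polynomial at the powers of two -/
theorem cfin_poly {E : Type} [Field E] [CharZero E] (l s : ℕ) {n : ℕ} (p : E[X])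
    (hp : p.natDegree < n) : CFin n l fun t => p.eval (2 ^ (t + s)) := by
  classical
  let F : ℕ → E[X] := fun n => ∏ i ∈ Finset.range n, (X - C ((2 : E) ^ i))
  have hdeg : ∀ n, (F n).natDegree = n := by
    intro n
    simp only [F]
    rw [natDegree_prod_of_monic _ _ fun i _ => monic_X_sub_C _]
    rw [Finset.sum_congr rfl fun i _ => natDegree_X_sub_C _, Finset.sum_const, Finset.card_range,
      smul_eq_mul, mul_one]
  have hmon : ∀ n, (F n).Monic := fun n => monic_prod_of_monic _ _ fun i _ => monic_X_sub_C _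
  have h0 : ∀ n, (F n).coeff 0 ≠ 0 := by
    intro n
    simp only [F]
    rw [coeff_zero_eq_eval_zero, eval_prod]
    refine Finset.prod_ne_zero_iff.2 fun i _ => ?_
    rw [eval_sub, eval_X, eval_C, zero_sub, neg_ne_zero]
    exact pow_ne_zero _ two_ne_zero
  -- the geometric sequences
  have hg : ∀ i, i < n → aeval ((sh E).toLinearMap : Module.End E (ℕ → E)) (F n)
      (fun t : ℕ => ((2 : E) ^ i) ^ t) = 0 := by
    intro i hi
    simp only [F]
    rw [← Finset.prod_erase_mul _ _ (Finset.mem_range.2 hi), map_mul, Module.End.mul_apply]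
    have h1 : aeval ((sh E).toLinearMap : Module.End E (ℕ → E)) (X - C ((2 : E) ^ i))
        (fun t : ℕ => ((2 : E) ^ i) ^ t) = 0 := by
      funext t
      rw [map_sub, aeval_X, aeval_C, LinearMap.sub_apply, Pi.sub_apply]
      change ((2 : E) ^ i) ^ (t + 1) - (2 : E) ^ i * ((2 : E) ^ i) ^ t = 0
      rw [pow_succ]
      ring
    rw [h1, map_zero]
  have hf : (fun t => p.eval ((2 : E) ^ (t + s))) = ∑ i ∈ Finset.range n,
      (p.coeff i * 2 ^ (s * i)) • (fun t : ℕ => ((2 : E) ^ i) ^ t) := by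
    funext t
    rw [Finset.sum_apply, Polynomial.eval_eq_sum_range' hp]
    refine Finset.sum_congr rfl fun i _ => ?_
    rw [Pi.smul_apply, smul_eq_mul, ← pow_mul, ← pow_mul, Nat.add_mul, pow_add, mul_comm i t]
    ring
  have hz : aeval ((sh E).toLinearMap : Module.End E (ℕ → E)) (F n)
      (fun t => p.eval ((2 : E) ^ (t + s))) = 0 := by
    rw [hf, map_sum]
    refine Finset.sum_eq_zero fun i hi => ?_
    rw [map_smul, hg i (Finset.mem_range.1 hi), smul_zero]
  refine ⟨n, (F n).coeff, le_rfl, h0 n, ?_, fun t _ => ?_⟩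
  · have h1 := (hmon n).coeff_natDegree
    rw [hdeg] at h1
    rw [h1]
    exact one_ne_zero
  · have h1 := congrFun hz t
    rw [aeval_sh, hdeg, Pi.zero_apply] at h1
    exact h1

/-- the powers of two on a curve -/
theorem pow_curve {K E : Type} [Field K] [Field E] [CharZero E] [Algebra K E]
    {p : Fin (N + 1) → E[X]}
    (hnc : ∃ i j a b, (p i).coeff a * (p j).coeff b ≠ (p j).coeff a * (p i).coeff b)
    {G : MvPolynomial (Fin (N + 1)) K} (hG : MvPolynomial.aeval p G ≠ 0) :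
    ∃ (v : ℕ) (hne : ∀ m : ℕ, (fun i => (p i).eval ((2 : E) ^ (m + v))) ≠ 0),
      (∀ m : ℕ, MvPolynomial.aeval (fun i => (p i).eval ((2 : E) ^ (m + v))) G ≠ 0) ∧
      (Set.range fun m => Projectivization.mk E _ (hne m)).Infinite := by
  classical
  have hinf : Infinite E := CharZero.infinite E
  have hevG : ∀ (F : MvPolynomial (Fin (N + 1)) K) (t : E),
      (MvPolynomial.aeval p F).eval t = MvPolynomial.aeval (fun i => (p i).eval t) F := fun F t =>
    Pool.Agent.Y215.AF.aeval_eval p F t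
  obtain ⟨i0, hi0⟩ : ∃ i, p i ≠ 0 := by
    by_contra h
    push Not at h
    obtain ⟨i, j, a, b, hne⟩ := hnc
    apply hne
    rw [h i, h j]
  obtain ⟨v, hv⟩ := eventually_atTop.1 ((Pool.Agent.Q183.RS.pow_two_ev hG).and
    (Pool.Agent.Q183.RS.pow_two_ev hi0))
  refine ⟨v, fun m h0 => (hv (m + v) (by omega)).2 (congrFun h0 i0), fun m => ?_, ?_⟩
  · rw [← hevG]
    exact (hv (m + v) (by omega)).1
  · intro hfin
    obtain ⟨i1, j1, a1, b1, hne1⟩ := hnc
    apply hne1
    have : Finite (Set.range fun m => Projectivization.mk E (fun i => (p i).eval (2 ^ (m + v)))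
      (fun h0 => (hv (m + v) (by omega)).2 (congrFun h0 i0))) := hfin
    obtain ⟨⟨P, m0, hm0⟩, hP⟩ := Finite.exists_infinite_fiber (Set.rangeFactorization
      fun m => Projectivization.mk E (fun i => (p i).eval (2 ^ (m + v)))
      (fun h0 => (hv (m + v) (by omega)).2 (congrFun h0 i0)))
    have hset : (Set.rangeFactorization (fun m => Projectivization.mk E
        (fun i => (p i).eval (2 ^ (m + v))) (fun h0 => (hv (m + v) (by omega)).2
          (congrFun h0 i0))) ⁻¹' {⟨P, m0, hm0⟩}).Infinite := Set.infinite_coe_iff.1 hP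
    let w : Fin (N + 1) → E := fun i => (p i).eval (2 ^ (m0 + v))
    have hwne : w i0 ≠ 0 := (hv (m0 + v) (by omega)).2
    have hrel : ∀ i j, p i * Polynomial.C (w j) = p j * Polynomial.C (w i) := by
      intro i j
      rw [← sub_eq_zero]
      apply Polynomial.eq_zero_of_infinite_isRoot
      refine Set.Infinite.mono ?_ (hset.image (f := fun m : ℕ => (2 : E) ^ (m + v)) ?_)
      · rintro _ ⟨m, hm, rfl⟩
        have h1 : Projectivization.mk E (fun i => (p i).eval (2 ^ (m + v)))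
            (fun h0 => (hv (m + v) (by omega)).2 (congrFun h0 i0)) = P := congrArg Subtype.val hm
        rw [← hm0, Projectivization.mk_eq_mk_iff'] at h1
        obtain ⟨c, hc⟩ := h1
        change Polynomial.eval _ _ = 0
        have h2 : ∀ i, (p i).eval (2 ^ (m + v)) = c * w i := fun i => (congrFun hc i).symm
        rw [Polynomial.eval_sub, Polynomial.eval_mul, Polynomial.eval_mul, Polynomial.eval_C,
          Polynomial.eval_C, h2, h2]
        ring
      · intro m _ m' _ h1
        have h2 : m + v = m' + v := by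
          have h3 : ((2 ^ (m + v) : ℕ) : E) = ((2 ^ (m' + v) : ℕ) : E) := by
            push_cast
            exact h1
          exact Nat.pow_right_injective le_rfl (Nat.cast_injective h3)
        omega
    have h1 : ∀ i m, (p i).coeff m * w i0 = (p i0).coeff m * w i := by
      intro i m
      have h2 := congrArg (fun q => Polynomial.coeff q m) (hrel i i0)
      simp only [Polynomial.coeff_mul_C] at h2
      exact h2
    apply mul_left_cancel₀ (mul_ne_zero hwne hwne)
    have e1 := h1 i1 a1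
    have e2 := h1 j1 b1
    have e3 := h1 j1 a1
    have e4 := h1 i1 b1
    linear_combination e1 * ((p j1).coeff b1 * w i0) + (p i0).coeff a1 * w i1 * e2 -
      e3 * ((p i1).coeff b1 * w i0) - (p i0).coeff a1 * w j1 * e4

theorem eval_aevalJ {K E : Type} [Field K] [Field E] [Algebra K E] (p : J → E[X])
    (F : MvPolynomial J K) (t : E) : (MvPolynomial.aeval p F).eval t =
      MvPolynomial.aeval (fun i => (p i).eval t) F := by
  rw [MvPolynomial.aeval_def, MvPolynomial.aeval_def, ← coe_evalRingHom, MvPolynomial.hom_eval₂]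
  congr 1
  ext c
  simp

theorem JCur.seq {n : ℕ} {φ : Fin (N + 1) → J} {K E : Type} [Field K] [Field E] [CharZero E]
    [Algebra K E] {FF : Set (MvPolynomial J K)} {Q : MvPolynomial J K} {p : J → E[X]}
    (hp : JCur n φ FF Q p) {G : MvPolynomial (Fin (N + 1)) K}
    (hG : MvPolynomial.aeval (fun i => p (φ i)) G ≠ 0) :
    ∃ (x : ℕ → Fin (N + 1) → E) (hne : ∀ m, x m ≠ 0),
      (∀ l, JPts φ FF Q E (n + 1) l fun t => Projectivization.mk E (x t) (hne t)) ∧
      (∀ m, MvPolynomial.aeval (x m) G ≠ 0) ∧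
      (Set.range fun m => Projectivization.mk E (x m) (hne m)).Infinite := by
  classical
  obtain ⟨hdeg, hzero, ⟨c, k, hc, hk⟩, hnc⟩ := hp
  obtain ⟨v, hne, h1, h2⟩ := pow_curve hnc hG
  refine ⟨fun m i => (p (φ i)).eval (2 ^ (m + v)), hne, fun l => ?_, h1, h2⟩
  refine ⟨fun m i => (p i).eval (2 ^ (m + v)), fun t _ => ⟨hne t, rfl⟩, fun t _ F hF => ?_,
    fun j => cfin_poly l v (p j) (Nat.lt_succ_of_le (hdeg j)), c * 2 ^ (v * k), 2 ^ k,
    mul_ne_zero hc (pow_ne_zero _ two_ne_zero), pow_ne_zero _ two_ne_zero, fun t _ => ?_⟩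
  · rw [← eval_aevalJ, hzero F hF, Polynomial.eval_zero]
  · rw [← eval_aevalJ, hk, eval_mul, eval_C, eval_pow, eval_X, ← pow_mul, ← pow_mul, Nat.add_mul,
      pow_add, mul_comm t k]
    ring

theorem inI_mk {K L : Type} [Field K] [Field L] [Algebra K L]
    {Z : Ideal (MvPolynomial (Fin (N + 1)) K)}
    (hZ : ∀ G ∈ Z, ∀ d, MvPolynomial.homogeneousComponent d G ∈ Z)
    (v : Fin (N + 1) → L) (hv : v ≠ 0) :
    InI Z (Projectivization.mk L v hv) ↔ ∀ G ∈ forms Z, MvPolynomial.aeval v G = 0 := by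
  have h1 := inZ_mk (GG := forms Z) (fun G hG => hG.2) v hv
  rw [← h1]
  constructor
  · intro h G hG
    exact h G hG.1
  · intro h G hG
    rw [← MvPolynomial.sum_homogeneousComponent (φ := G), map_sum]
    exact Finset.sum_eq_zero fun d _ => h _ ⟨hZ G hG d, d,
      MvPolynomial.homogeneousComponent_isHomogeneous d G⟩

theorem onG_mk {K L : Type} [Field K] [Field L] [Algebra K L]
    {G : MvPolynomial (Fin (N + 1)) K} (hG : ∃ d, G.IsHomogeneous d)
    (v : Fin (N + 1) → L) (hv : v ≠ 0) :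
    OnG G (Projectivization.mk L v hv) ↔ MvPolynomial.aeval v G = 0 := by
  have h1 := inZ_mk (GG := {G}) (fun G' hG' => by
    rw [Set.mem_singleton_iff.1 hG']
    exact hG) v hv
  unfold OnG
  constructor
  · intro h
    exact h1.1 (fun G' hG' => by rwa [Set.mem_singleton_iff.1 hG']) G rfl
  · intro h
    exact h1.2 (fun G' hG' => by rwa [Set.mem_singleton_iff.1 hG']) G rfl

/-- the sequence is purely periodic outside of `Z`: number of points -/
theorem per_points_le {α : Type} {P : ℕ → α} {Z : α → Prop} {M l : ℕ} (hM : 0 < M)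
    (h : ∀ t, t + M < l → P (t + M) = P t ∨ Z (P t)) :
    (P '' {t | t < l ∧ ¬ Z (P t)}).encard ≤ M := by
  classical
  have hsub : P '' {t | t < l ∧ ¬ Z (P t)} ⊆ P '' ((Finset.Ico (l - M) l : Finset ℕ) : Set ℕ) := by
    rintro _ ⟨t, ⟨ht, hZ⟩, rfl⟩
    have key : ∀ n t, l - t ≤ n → t < l → ¬ Z (P t) → ∃ u, l - M ≤ u ∧ u < l ∧ P u = P t := by
      intro n
      induction n with
      | zero =>
        intro t h1 h2
        omega
      | succ n ih =>
        intro t h1 h2 h3
        by_cases h4 : t + M < l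
        · rcases h t h4 with h5 | h5
          · obtain ⟨u, hu1, hu2, hu3⟩ := ih (t + M) (by omega) h4 (by rwa [h5])
            exact ⟨u, hu1, hu2, hu3.trans h5⟩
          · exact absurd h5 h3
        · exact ⟨t, by omega, h2, rfl⟩
    obtain ⟨u, h1, h2, h3⟩ := key _ t le_rfl ht hZ
    exact ⟨u, Finset.mem_coe.2 (Finset.mem_Ico.2 ⟨h1, h2⟩), h3⟩
  refine (Set.encard_le_encard hsub).trans ((Set.encard_image_le _ _).trans ?_)
  rw [Set.encard_coe_eq_coe_finsetCard, Nat.card_Ico]
  exact_mod_cast (by omega : l - (l - M) ≤ M)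

/-- the conclusion for a list of subvarieties -/
structure Concl {K : Type} [Field K] (T : Set (Ideal (MvPolynomial (Fin (N + 1)) K))) (M C : ℕ)
    (L : Type) [Field L] [Algebra K L] (l : ℕ) (P : ℕ → ℙ L (Fin (N + 1) → L)) : Prop where
  per : C ≤ l → ∀ t, t + M < l → P (t + M) = P t ∨ ∃ Z ∈ T, InI Z (P t)
  card : (P '' {t | t < l ∧ ∀ Z ∈ T, ¬ InI Z (P t)}).encard ≤ C

/-- **The list of the subvarieties with many sequences of points.** -/
theorem jlist [Fintype J] (φ : Fin (N + 1) → J) (D : ℕ) : ∃ M n C : ℕ → ℕ, (∀ R, 0 < M R) ∧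
    ∀ (K : Type) [Field K] [CharZero K] (FF : Set (MvPolynomial J K)) (Q : MvPolynomial J K),
      (∀ F ∈ FF, ∃ e, e ≤ D ∧ F.IsHomogeneous e) → (∃ q, q ≤ D ∧ Q.IsHomogeneous q) →
      ∀ R : ℕ, ∃ T : Set (Ideal (MvPolynomial (Fin (N + 1)) K)), T.Finite ∧
        (∀ Z ∈ T, ∃ (M' : Type) (_ : Field M') (_ : Algebra K M') (p : J → M'[X]),
          JCur (n R) φ FF Q p ∧ Z = Zid (fun i => p (φ i)) ∧
          ∃ (ι : Type) (_ : Fintype ι) (v : ι → M'), IntermediateField.adjoin K (Set.range v) = ⊤) ∧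
        ∀ (L : Type) [Field L] [Algebra K L] (l : ℕ) (P : ℕ → ℙ L (Fin (N + 1) → L)),
          JPts φ FF Q L R l P → Concl T (M R) (C R) L l P := by
  classical
  choose M n hM hB using fun R => exp_main J D R
  let C : ℕ → ℕ := fun R => (Fintype.card J * R) ^ D + 1
  refine ⟨M, n, fun R => max (M R) (C R), hM, fun K _ _ FF Q hFF hQ R => ?_⟩
  obtain ⟨T, hT, hT1, hT2⟩ := curve_list (φ := φ) FF Q hQ (n R)
  have hhom : ∀ Z ∈ T, ∀ G ∈ Z, ∀ d, MvPolynomial.homogeneousComponent d G ∈ Z := by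
    intro Z hZ
    obtain ⟨_, _, _, p, _, rfl, _⟩ := hT1 Z hZ
    exact fun G hG d => Zid_hom hG d
  let GG : Set (MvPolynomial (Fin (N + 1)) K) :=
    {G | ∃ f : Ideal (MvPolynomial (Fin (N + 1)) K) → MvPolynomial (Fin (N + 1)) K,
      (∀ Z ∈ T, f Z ∈ forms Z) ∧ G = ∏ Z ∈ hT.toFinset, f Z}
  have hGG : ∀ G ∈ GG, ∃ d, G.IsHomogeneous d := by
    rintro G ⟨f, hf, rfl⟩
    choose! d hd using fun Z (hZ : Z ∈ T) => (hf Z hZ).2
    exact ⟨_, MvPolynomial.IsHomogeneous.prod _ _ _ fun Z hZ => hd Z (hT.mem_toFinset.1 hZ)⟩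
  have hGGne : ∀ {L : Type} [Field L] [Algebra K L] (v : Fin (N + 1) → L),
      (∀ Z ∈ T, ∃ G ∈ forms Z, MvPolynomial.aeval v G ≠ 0) →
      ∃ G ∈ GG, MvPolynomial.aeval v G ≠ 0 := by
    intro L _ _ v h
    choose! f hf hne using h
    refine ⟨_, ⟨f, hf, rfl⟩, ?_⟩
    rw [map_prod]
    exact Finset.prod_ne_zero_iff.2 fun Z hZ => hne Z (hT.mem_toFinset.1 hZ)
  -- the bound
  have key : ∀ (L : Type) [Field L] [Algebra K L] (l : ℕ) (y : ℕ → J → L), C R ≤ l →
        (∀ t, t < l → ∀ F ∈ FF, MvPolynomial.aeval (y t) F = 0) → (∀ j, CFin R l fun t => y t j) →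
        (∃ (c μ : L), c ≠ 0 ∧ μ ≠ 0 ∧ ∀ t, t < l → MvPolynomial.aeval (y t) Q = c * μ ^ t) →
        ∀ t, t + M R < l →
          (∀ i j, y t (φ i) * y (t + M R) (φ j) = y t (φ j) * y (t + M R) (φ i)) ∨
          ∃ Z ∈ T, ∀ G ∈ forms Z, MvPolynomial.aeval (fun i => y t (φ i)) G = 0 := by
    intro L _ _ l x hl hX hrec hQx t ht
    by_contra hcon
    push Not at hcon
    obtain ⟨⟨i0, j0, hne⟩, hall⟩ := hcon
    obtain ⟨G, hG, hGne⟩ := hGGne (fun i => x t (φ i)) hall
    have hcz : CharZero L := charZero_of_injective_algebraMap (algebraMap K L).injective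
    let L' : Type := AlgebraicClosure L
    let τ : L →+* L' := algebraMap L L'
    let ψ : K →+* L' := τ.comp (algebraMap K L)
    have hcz' : CharZero L' := charZero_of_injective_algebraMap τ.injective
    let _ : Algebra K L' := ψ.toAlgebra
    let y : ℕ → J → L' := fun t j => τ (x t j)
    have hev : ∀ {I : Type} (v : I → L) (F : MvPolynomial I K),
        MvPolynomial.aeval (fun j => τ (v j)) (MvPolynomial.map ψ F) =
          τ (MvPolynomial.aeval v F) := by
      intro I v F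
      rw [MvPolynomial.aeval_def, MvPolynomial.aeval_def, MvPolynomial.eval₂_map,
        MvPolynomial.eval₂_comp_left]
      rfl
    have hpol : ∀ {I : Type} (p : I → L'[X]) (F : MvPolynomial I K),
        MvPolynomial.aeval p (MvPolynomial.map ψ F) = MvPolynomial.aeval p F := by
      intro I p F
      rw [MvPolynomial.aeval_def, MvPolynomial.aeval_def, MvPolynomial.eval₂_map]
      rfl
    have hOrb : GmJ (n R) φ ((MvPolynomial.map ψ) '' FF) (MvPolynomial.map ψ Q)
        ((MvPolynomial.map ψ) '' GG) L' := by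
      intro p hdeg hp hpQ
      by_cases hnc : ∀ i j a b, (p (φ i)).coeff a * (p (φ j)).coeff b =
          (p (φ j)).coeff a * (p (φ i)).coeff b
      · exact Or.inl hnc
      right
      push Not at hnc
      obtain ⟨Z, hZ, hZp⟩ := hT2 L' p ⟨hdeg, fun F hF => by
        have h1 := hp _ ⟨F, hF, rfl⟩
        rwa [hpol] at h1, by
        obtain ⟨c, k, hc, h1⟩ := hpQ
        exact ⟨c, k, hc, by rwa [hpol] at h1⟩, hnc⟩
      rintro _ ⟨G, ⟨f, hf, rfl⟩, rfl⟩
      rw [hpol, map_prod]
      refine Finset.prod_eq_zero (hT.mem_toFinset.2 hZ) ?_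
      obtain ⟨h1, d, hd⟩ := hf Z hZ
      have h2 := hZp _ h1 d
      rwa [MvPolynomial.homogeneousComponent_eq_self hd] at h2
    obtain ⟨c, μ, hc, hμ, hQc⟩ := hQx
    have h1 := hB R L' (Fin (N + 1)) φ ((MvPolynomial.map ψ) '' FF) ((MvPolynomial.map ψ) '' GG)
      (MvPolynomial.map ψ Q) (by
      rintro _ ⟨F, hF, rfl⟩
      obtain ⟨e, he, h⟩ := hFF F hF
      exact ⟨e, he, h.map _⟩) (by
      rintro _ ⟨F, hF, rfl⟩
      obtain ⟨e, h⟩ := hGG F hF
      exact ⟨e, h.map _⟩) (by
      obtain ⟨e, he, h⟩ := hQ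
      exact ⟨e, he, h.map _⟩) hOrb l hl y (fun j => (hrec j).map τ) (by
      rintro t ht _ ⟨F, hF, rfl⟩
      rw [hev, hX t ht F hF, map_zero]) (τ c) (τ μ) ((_root_.map_ne_zero τ).2 hc)
      ((_root_.map_ne_zero τ).2 hμ) (fun t ht => by
      rw [hev, hQc t ht, map_mul, map_pow]) t ht ⟨_, ⟨G, hG, rfl⟩, by
      rw [hev]
      exact (_root_.map_ne_zero τ).2 hGne⟩ i0 j0
    apply hne
    apply τ.injective
    rw [map_mul, map_mul]
    exact h1
  have key2 : ∀ (L : Type) [Field L] [Algebra K L] (l : ℕ) (P : ℕ → ℙ L (Fin (N + 1) → L)),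
      JPts φ FF Q L R l P → C R ≤ l → ∀ t, t + M R < l →
      P (t + M R) = P t ∨ ∃ Z ∈ T, InI Z (P t) := by
    rintro L _ _ l P ⟨x, hP, hX, hrec, hQx⟩ hl t ht
    obtain ⟨n1, e1⟩ := hP t (by omega)
    obtain ⟨n2, e2⟩ := hP (t + M R) ht
    rcases key L l x hl hX hrec hQx t ht with h1 | ⟨Z, hZ, h1⟩
    · left
      rw [e1, e2]
      symm
      rw [← par_iff n1 n2]
      exact h1
    · right
      refine ⟨Z, hZ, ?_⟩
      rw [e1, inI_mk (hhom Z hZ)]
      exact h1
  refine ⟨T, hT, hT1, fun L _ _ l P hP => ⟨fun hl => key2 L l P hP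
    ((le_max_right _ _).trans hl), ?_⟩⟩
  rcases Nat.lt_or_ge l (max (M R) (C R)) with hl | hl
  · refine le_trans (Set.encard_le_encard (t := P '' ((Finset.range l : Finset ℕ) : Set ℕ)) ?_) ?_
    · refine Set.image_mono fun t ht => ?_
      exact Finset.mem_coe.2 (Finset.mem_range.2 ht.1)
    · refine (Set.encard_image_le _ _).trans ?_
      rw [Set.encard_coe_eq_coe_finsetCard, Finset.card_range]
      exact_mod_cast hl.le
  · have h1 := per_points_le (P := P) (Z := fun P => ∃ Z ∈ T, InI Z P) (l := l) (hM R)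
      (key2 L l P hP ((le_max_right _ _).trans hl))
    push Not at h1
    refine le_trans h1 ?_
    exact_mod_cast le_max_left _ _

/-- the points of such sequences are dense in the subvarieties of the list -/
theorem JCur.dense [Fintype J] {n : ℕ} {φ : Fin (N + 1) → J} {K : Type} [Field K] [CharZero K]
    {FF : Set (MvPolynomial J K)} {Q : MvPolynomial J K}
    {E : Type} [Field E] [Algebra K E] {p : J → E[X]} (hp : JCur n φ FF Q p)
    {G : MvPolynomial (Fin (N + 1)) K} (hGd : ∃ d, G.IsHomogeneous d)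
    (hG : G ∉ Zid (K := K) fun i => p (φ i)) :
    ∃ (L : Type) (_ : Field L) (_ : Algebra K L) (_ : FiniteDimensional K L)
      (P : ℕ → ℙ L (Fin (N + 1) → L)),
      (∀ l, JPts φ (FF ∪ MvPolynomial.rename φ '' (forms (Zid (K := K) fun i => p (φ i)))) Q L
        (n + 1) l P) ∧
      (∀ t, ¬ OnG G (P t)) ∧ (Set.range P).Infinite := by
  obtain ⟨d, hd⟩ := hGd
  rw [form_mem_Zid hd] at hG
  have hren : ∀ {A : Type} [CommRing A] [Algebra K A] (p : J → A) (F : MvPolynomial (Fin (N + 1)) K),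
      MvPolynomial.aeval p (MvPolynomial.rename φ F) = MvPolynomial.aeval (fun i => p (φ i)) F := by
    intro A _ _ p F
    rw [MvPolynomial.aeval_rename]
    rfl
  have hp1 : JCur n φ (FF ∪ MvPolynomial.rename φ '' (forms (Zid (K := K) fun i => p (φ i)))) Q p := by
    refine ⟨hp.deg, ?_, hp.mono, hp.nc⟩
    rintro F (hF | ⟨F, ⟨h1, d, hd⟩, rfl⟩)
    · exact hp.zero F hF
    · rw [hren]
      exact (form_mem_Zid hd).1 h1
  obtain ⟨L, iF, iA, iFin, p', hp', hG'⟩ := hp1.spec (G := MvPolynomial.rename φ G) (by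
    rw [hren]
    exact hG)
  have hcz : CharZero L := charZero_of_injective_algebraMap (algebraMap K L).injective
  rw [hren] at hG'
  obtain ⟨x, hne, h1, h2, h3⟩ := hp'.seq hG'
  refine ⟨L, iF, iA, iFin, fun t => Projectivization.mk L (x t) (hne t), h1, fun t h => ?_, h3⟩
  rw [onG_mk ⟨d, hd⟩] at h
  exact h2 t h

/-- a bounded number of points -/
theorem not_bounded {L : Type} [Field L] {K : Type} [Field K] [Algebra K L]
    {G : MvPolynomial (Fin (N + 1)) K} {P : ℕ → ℙ L (Fin (N + 1) → L)}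
    (h2 : ∀ t, ¬ OnG G (P t)) (h3 : (Set.range P).Infinite) (B : ℕ) :
    ∃ l, ¬ (P '' {t | t < l ∧ ¬ OnG G (P t)}).encard ≤ B := by
  classical
  obtain ⟨T, hT, hcard⟩ := h3.exists_subset_card_eq (B + 1)
  have hT' : ∀ Q, Q ∈ T → ∃ m, P m = Q := fun Q hQ => hT hQ
  choose! ind hind using hT'
  refine ⟨T.sup ind + 1, fun h1 => ?_⟩
  have h2 : (T : Set (ℙ L (Fin (N + 1) → L))) ⊆ P '' {t | t < T.sup ind + 1 ∧ ¬ OnG G (P t)} := by
    intro Q hQ
    exact ⟨ind Q, ⟨Nat.lt_succ_of_le (Finset.le_sup (f := ind) hQ), h2 _⟩, hind Q hQ⟩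
  have h3 := (Set.encard_le_encard h2).trans h1
  rw [Set.encard_coe_eq_coe_finsetCard, hcard] at h3
  have h4 : B + 1 ≤ B := by exact_mod_cast h3
  omega

end Pool.Agent.Q183.UE
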