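import Pool.Agent.Q183.UE.CDefs
import Pool.Agent.Q183.UE.JSeq

/-!
Sequences of points of C-pairs given by linear recurrences with constant coefficients.
-/

set_option autoImplicit false

namespace Pool.Agent.Q183.UE

open Polynomial
open scoped LinearAlgebra.Projectivization

variable {N s ν : ℕ}

theorem dvd_mono {K : Type} [Field K] {A B : K[X]} {c : K} {k : ℕ} (hc : c ≠ 0)
    (h : A * B = C c * X ^ k) : ∃ (a : K) (i : ℕ), a ≠ 0 ∧ A = C a * X ^ i := by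
  have h1 : A ∣ X ^ k := by
    refine ⟨B * C c⁻¹, ?_⟩
    rw [← mul_assoc, h]
    have h2 : C c * X ^ k * C c⁻¹ = (C c * C c⁻¹) * X ^ k := by ring
    rw [h2, ← C_mul, mul_inv_cancel₀ hc, C_1, one_mul]
  obtain ⟨i, -, hi⟩ := (dvd_prime_pow Polynomial.prime_X k).1 h1
  obtain ⟨u, hu⟩ := hi.symm
  obtain ⟨a, ha, hau⟩ := Polynomial.isUnit_iff.1 u.isUnit
  exact ⟨a, i, ha.ne_zero, by rw [← hu, ← hau, mul_comm]⟩

theorem dvd_mono' {K : Type} [Field K] {ι : Type} [Fintype ι] {A : ι → K[X]} {c : K} {k : ℕ}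
    (hc : c ≠ 0) (h : ∏ i, A i = C c * X ^ k) (i : ι) : ∃ (a : K) (j : ℕ), a ≠ 0 ∧ A i = C a * X ^ j := by
  classical
  refine dvd_mono (B := ∏ j ∈ Finset.univ.erase i, A j) (k := k) hc ?_
  rw [Finset.mul_prod_erase _ _ (Finset.mem_univ i), h]

/-- removing powers of the variable -/
theorem stripE {K : Type} [Field K] {A : K[X]} {g : Fin ν → K[X]} {c : K} {a b : ℕ}
    {m : Fin ν → ℕ} (hc : c ≠ 0) (hA : A ≠ 0)
    (h : A * X ^ a = C c * X ^ b * ∏ j, g j ^ m j) :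
    ∃ (k : ℕ) (g' : Fin ν → K[X]), (∀ j, g' j ≠ 0) ∧ A = C c * X ^ k * ∏ j, g' j ^ m j := by
  classical
  -- the factors
  have hex : ∀ j, ∃ (v : ℕ) (g' : K[X]), g' ≠ 0 ∧ ¬ X ∣ g' ∧ g j ^ m j = X ^ v * g' ^ m j := by
    intro j
    by_cases hm : m j = 0
    · refine ⟨0, 1, one_ne_zero, ?_, by rw [hm, pow_zero, pow_zero, pow_zero, mul_one]⟩
      intro h1
      exact Polynomial.prime_X.not_dvd_one h1
    · have hg : g j ≠ 0 := by
        intro hg
        have h0 : ∏ j, g j ^ m j = 0 := Finset.prod_eq_zero (Finset.mem_univ j) (by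
          rw [hg, zero_pow hm])
        rw [h0, mul_zero] at h
        rcases mul_eq_zero.1 h with h1 | h1
        · exact hA h1
        · exact pow_ne_zero _ X_ne_zero h1
      obtain ⟨g', hg', hnd⟩ := exists_eq_pow_rootMultiplicity_mul_and_not_dvd (g j) hg 0
      rw [C_0, sub_zero] at hg' hnd
      refine ⟨rootMultiplicity 0 (g j) * m j, g', ?_, hnd, ?_⟩
      · intro h0
        exact hnd (h0 ▸ dvd_zero _)
      · conv_lhs => rw [hg']
        rw [mul_pow, ← pow_mul]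
  choose v g' hg0 hnd hgv using hex
  have h1 : A * X ^ a = (C c * ∏ j, g' j ^ m j) * X ^ (b + ∑ j, v j) := by
    rw [h, Finset.prod_congr rfl fun j _ => hgv j, Finset.prod_mul_distrib,
      Finset.prod_pow_eq_pow_sum, pow_add]
    ring
  have h2 : a ≤ b + ∑ j, v j := by
    by_contra hcon
    push Not at hcon
    have h3 : A * X ^ (a - (b + ∑ j, v j)) = C c * ∏ j, g' j ^ m j := by
      refine mul_right_cancel₀ (pow_ne_zero (b + ∑ j, v j) X_ne_zero) ?_
      rw [← h1, mul_assoc, ← pow_add]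
      congr 2
      omega
    have h4 : (X : K[X]) ∣ C c * ∏ j, g' j ^ m j := by
      rw [← h3]
      exact Dvd.dvd.mul_left (dvd_pow_self _ (by omega)) _
    rcases Polynomial.prime_X.dvd_or_dvd h4 with h5 | h5
    · have h6 := Polynomial.X_dvd_iff.1 h5
      rw [coeff_C_zero] at h6
      exact hc h6
    · obtain ⟨j, -, hj⟩ := (Polynomial.prime_X.dvd_finsetProd_iff _).1 h5
      exact hnd j (Polynomial.prime_X.dvd_of_dvd_pow hj)
  refine ⟨b + (∑ j, v j) - a, g', hg0, ?_⟩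
  refine mul_right_cancel₀ (pow_ne_zero a X_ne_zero) ?_
  rw [h1]
  have h3 : b + ∑ j, v j = (b + (∑ j, v j) - a) + a := by omega
  conv_lhs => rw [h3, pow_add]
  ring

theorem CFin.mono {K : Type} [Field K] {R R' l : ℕ} {f : ℕ → K} (h : CFin R l f) (hR : R ≤ R') :
    CFin R' l f := by
  obtain ⟨q, a, hq, h0, h1, h⟩ := h
  exact ⟨q, a, hq.trans hR, h0, h1, h⟩

theorem cfin_geom {K : Type} [Field K] (R l : ℕ) (c : K) {μ : K} (hμ : μ ≠ 0) :
    CFin (R + 1) l fun t => c * μ ^ t := by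
  refine ⟨1, fun k => if k = 0 then -μ else 1, by omega, by simpa using hμ, by simp, fun t _ => ?_⟩
  rw [Finset.sum_range_succ, Finset.sum_range_one]
  beta_reduce
  rw [if_pos rfl, if_neg one_ne_zero, pow_succ, Nat.add_zero]
  ring

/-! ### the auxiliary variety -/

/-- the variables: coordinates, `g`, `z`, `a`, `w`, homogenising variable -/
abbrev JJ (N s ν : ℕ) : Type :=
  Fin (N + 1) ⊕ ((Fin s × Fin ν) ⊕ (Fin s ⊕ (Fin (N + 1) ⊕ (Unit ⊕ Unit))))

section aux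

variable (N s ν)

abbrev jx (j : Fin (N + 1)) : JJ N s ν := Sum.inl j

variable {N s ν}

abbrev jg (v : Fin s × Fin ν) : JJ N s ν := Sum.inr (Sum.inl v)

abbrev jz (i : Fin s) : JJ N s ν := Sum.inr (Sum.inr (Sum.inl i))

abbrev ja (j : Fin (N + 1)) : JJ N s ν := Sum.inr (Sum.inr (Sum.inr (Sum.inl j)))

variable (N s ν)

abbrev jw : JJ N s ν := Sum.inr (Sum.inr (Sum.inr (Sum.inr (Sum.inl ()))))

abbrev j0 : JJ N s ν := Sum.inr (Sum.inr (Sum.inr (Sum.inr (Sum.inr ()))))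

variable {N s ν}

variable {K : Type} [Field K]

/-- the equations for `Q i` -/
noncomputable def rel (Q : Fin s → MvPolynomial (Fin (N + 1)) K) (q : Fin s → ℕ)
    (e : Fin s → Fin ν → ℕ) (i : Fin s) : MvPolynomial (JJ N s ν) K :=
  MvPolynomial.rename (jx N s ν) (Q i) * MvPolynomial.X (j0 N s ν) ^ (1 + ∑ j, e i j) -
    MvPolynomial.X (jz i) * (∏ j, MvPolynomial.X (jg (i, j)) ^ e i j) *
      MvPolynomial.X (j0 N s ν) ^ q i

/-- the equation of coprimality -/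
noncomputable def relc : MvPolynomial (JJ N s ν) K :=
  (∑ j, MvPolynomial.X (ja j) * MvPolynomial.X (jx N s ν j)) -
    MvPolynomial.X (jw N s ν) * MvPolynomial.X (j0 N s ν)

/-- the equations -/
def FFJ (FF : Set (MvPolynomial (Fin (N + 1)) K)) (Q : Fin s → MvPolynomial (Fin (N + 1)) K)
    (q : Fin s → ℕ) (e : Fin s → Fin ν → ℕ) : Set (MvPolynomial (JJ N s ν) K) :=
  (MvPolynomial.rename (jx N s ν)) '' FF ∪ (Set.range (rel Q q e) ∪ {relc})

/-- the monomials -/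
noncomputable def QJ : MvPolynomial (JJ N s ν) K :=
  MvPolynomial.X (j0 N s ν) * (MvPolynomial.X (jw N s ν) * ∏ i, MvPolynomial.X (jz i))

theorem ev_ren {A : Type} [CommRing A] [Algebra K A] (p : JJ N s ν → A)
    (F : MvPolynomial (Fin (N + 1)) K) :
    MvPolynomial.aeval p (MvPolynomial.rename (jx N s ν) F) =
      MvPolynomial.aeval (fun i => p (jx N s ν i)) F := by
  rw [MvPolynomial.aeval_rename]
  rfl

theorem ev_rel {A : Type} [CommRing A] [Algebra K A] (p : JJ N s ν → A)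
    (Q : Fin s → MvPolynomial (Fin (N + 1)) K) (q : Fin s → ℕ) (e : Fin s → Fin ν → ℕ) (i : Fin s) :
    MvPolynomial.aeval p (rel Q q e i) = MvPolynomial.aeval (fun i => p (jx N s ν i)) (Q i) *
      p (j0 N s ν) ^ (1 + ∑ j, e i j) - p (jz i) * (∏ j, p (jg (i, j)) ^ e i j) *
        p (j0 N s ν) ^ q i := by
  unfold rel
  rw [map_sub, map_mul, map_mul, map_mul, map_pow, map_pow, map_prod, ev_ren, MvPolynomial.aeval_X,
    MvPolynomial.aeval_X]
  simp only [map_pow, MvPolynomial.aeval_X]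

theorem ev_relc {A : Type} [CommRing A] [Algebra K A] (p : JJ N s ν → A) :
    MvPolynomial.aeval p (relc (K := K) (N := N) (s := s) (ν := ν)) =
      (∑ j, p (ja j) * p (jx N s ν j)) - p (jw N s ν) * p (j0 N s ν) := by
  unfold relc
  rw [map_sub, map_sum, map_mul]
  simp only [map_mul, MvPolynomial.aeval_X]

theorem ev_QJ {A : Type} [CommRing A] [Algebra K A] (p : JJ N s ν → A) :
    MvPolynomial.aeval p (QJ (K := K) (N := N) (s := s) (ν := ν)) =
      p (j0 N s ν) * (p (jw N s ν) * ∏ i, p (jz i)) := by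
  unfold QJ
  rw [map_mul, map_mul, map_prod, MvPolynomial.aeval_X, MvPolynomial.aeval_X]
  simp only [MvPolynomial.aeval_X]

theorem rel_hom {Q : Fin s → MvPolynomial (Fin (N + 1)) K} {q : Fin s → ℕ}
    (hQ : ∀ i, (Q i).IsHomogeneous (q i)) (e : Fin s → Fin ν → ℕ) (i : Fin s) :
    (rel Q q e i).IsHomogeneous (q i + (1 + ∑ j, e i j)) := by
  have hX : ∀ v : JJ N s ν, (MvPolynomial.X v : MvPolynomial (JJ N s ν) K).IsHomogeneous 1 :=
    fun v => MvPolynomial.isHomogeneous_X K _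
  have h1 : (MvPolynomial.rename (jx N s ν) (Q i) *
      MvPolynomial.X (j0 N s ν) ^ (1 + ∑ j, e i j)).IsHomogeneous (q i + (1 + ∑ j, e i j)) := by
    have h2 := ((hQ i).rename_isHomogeneous (f := jx N s ν)).mul
      ((hX (j0 N s ν)).pow (1 + ∑ j, e i j))
    rwa [one_mul] at h2
  have h2 : (MvPolynomial.X (jz i) * (∏ j, MvPolynomial.X (jg (i, j)) ^ e i j) *
      MvPolynomial.X (j0 N s ν) ^ q i : MvPolynomial (JJ N s ν) K).IsHomogeneous
        (q i + (1 + ∑ j, e i j)) := by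
    have h4 : (∏ j, (MvPolynomial.X (jg (i, j)) : MvPolynomial (JJ N s ν) K) ^ e i j).IsHomogeneous
        (∑ j, e i j) := MvPolynomial.IsHomogeneous.prod Finset.univ _ _ fun j _ => by
      have h1 := (hX (jg (i, j))).pow (e i j)
      rwa [one_mul] at h1
    have h3 := ((hX (jz i)).mul h4).mul ((hX (j0 N s ν)).pow (q i))
    rw [one_mul] at h3
    rwa [Nat.add_comm (1 + ∑ j, e i j) (q i)] at h3
  exact h1.sub h2

theorem relc_hom : (relc (K := K) (N := N) (s := s) (ν := ν)).IsHomogeneous 2 := by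
  have hX : ∀ v : JJ N s ν, (MvPolynomial.X v : MvPolynomial (JJ N s ν) K).IsHomogeneous 1 :=
    fun v => MvPolynomial.isHomogeneous_X K _
  exact (MvPolynomial.IsHomogeneous.sum _ _ _ fun j _ => (hX (ja j)).mul (hX (jx N s ν j))).sub
    ((hX (jw N s ν)).mul (hX (j0 N s ν)))

theorem QJ_hom : (QJ (K := K) (N := N) (s := s) (ν := ν)).IsHomogeneous (1 + (1 + s)) := by
  have hX : ∀ v : JJ N s ν, (MvPolynomial.X v : MvPolynomial (JJ N s ν) K).IsHomogeneous 1 :=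
    fun v => MvPolynomial.isHomogeneous_X K _
  have h1 : (∏ i : Fin s, (MvPolynomial.X (jz i) : MvPolynomial (JJ N s ν) K)).IsHomogeneous s := by
    have h2 := MvPolynomial.IsHomogeneous.prod Finset.univ
      (fun i : Fin s => (MvPolynomial.X (jz i) : MvPolynomial (JJ N s ν) K)) (fun _ => 1)
      fun i _ => hX _
    simpa using h2
  exact (hX _).mul ((hX _).mul h1)

/-- curves on the auxiliary variety -/
theorem jcur_ccur {n : ℕ} {FF : Set (MvPolynomial (Fin (N + 1)) K)}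
    {Q : Fin s → MvPolynomial (Fin (N + 1)) K} {q : Fin s → ℕ} {e : Fin s → Fin ν → ℕ} {E : Type}
    [Field E] [Algebra K E] {p : JJ N s ν → E[X]} (hp : JCur n (jx N s ν) (FFJ FF Q q e) QJ p)
    (hoff : ∀ i, MvPolynomial.aeval (fun j => p (jx N s ν j)) (Q i) ≠ 0) :
    CCur FF Q e fun j => p (jx N s ν j) := by
  classical
  obtain ⟨cc, k, hcc, hk⟩ := hp.mono
  rw [ev_QJ] at hk
  obtain ⟨a0, k0, ha0, hz0⟩ := dvd_mono hcc hk
  have hk' : (p (jw N s ν) * ∏ i, p (jz i)) * p (j0 N s ν) = C cc * X ^ k := by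
    rw [← hk]
    ring
  obtain ⟨a1, k1, ha1, hz1⟩ := dvd_mono hcc hk'
  obtain ⟨a2, k2, ha2, hz2⟩ := dvd_mono ha1 hz1
  have hz1' : (∏ i, p (jz i)) * p (jw N s ν) = C a1 * X ^ k1 := by
    rw [← hz1]
    ring
  obtain ⟨a3, k3, ha3, hz3⟩ := dvd_mono ha1 hz1'
  choose a k' ha hz using fun i => dvd_mono' ha3 hz3 i
  refine ⟨fun F hF => ?_, ?_, fun i => ?_, hp.nc⟩
  · have h1 := hp.zero _ (Or.inl ⟨F, hF, rfl⟩)
    rwa [ev_ren] at h1
  · have h1 := hp.zero _ (Or.inr (Or.inr rfl))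
    rw [ev_relc, sub_eq_zero, hz2, hz0] at h1
    refine ⟨fun j => p (ja j), a2 * a0, k2 + k0, mul_ne_zero ha2 ha0, ?_⟩
    rw [h1, C_mul, pow_add]
    ring
  · have h1 := hp.zero _ (Or.inr (Or.inl ⟨i, rfl⟩))
    rw [ev_rel, hz i, hz0, sub_eq_zero] at h1
    set σ : ℕ := ∑ j, e i j with hσ
    have h2 : MvPolynomial.aeval (fun i => p (jx N s ν i)) (Q i) * X ^ (k0 * (1 + σ)) =
        C (a i * a0 ^ q i / a0 ^ (1 + σ)) * X ^ (k' i + k0 * q i) *
          ∏ j, p (jg (i, j)) ^ e i j := by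
      have h3 : C (a0 ^ (1 + σ)) * (MvPolynomial.aeval (fun i => p (jx N s ν i)) (Q i) *
          X ^ (k0 * (1 + σ))) = C (a0 ^ (1 + σ)) * (C (a i * a0 ^ q i / a0 ^ (1 + σ)) *
            X ^ (k' i + k0 * q i) * ∏ j, p (jg (i, j)) ^ e i j) := by
        have h4 : C (a0 ^ (1 + σ)) * (C (a i * a0 ^ q i / a0 ^ (1 + σ)) *
            X ^ (k' i + k0 * q i) * ∏ j, p (jg (i, j)) ^ e i j) =
            (C (a0 ^ (1 + σ)) * C (a i * a0 ^ q i / a0 ^ (1 + σ))) *
            X ^ (k' i + k0 * q i) * ∏ j, p (jg (i, j)) ^ e i j := by ring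
        rw [h4, ← C_mul, mul_div_cancel₀ _ (pow_ne_zero _ ha0)]
        rw [C_mul, C_pow, C_pow]
        linear_combination h1
      exact mul_left_cancel₀ (C_ne_zero.2 (pow_ne_zero _ ha0)) h3
    obtain ⟨k2, g', hg', h5⟩ := stripE (div_ne_zero (mul_ne_zero (ha i) (pow_ne_zero _ ha0))
      (pow_ne_zero _ ha0)) (hoff i) h2
    exact ⟨_, k2, g', div_ne_zero (mul_ne_zero (ha i) (pow_ne_zero _ ha0))
      (pow_ne_zero _ ha0), hg', h5⟩

/-- the converse -/
theorem ccur_jcur {FF : Set (MvPolynomial (Fin (N + 1)) K)}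
    {Q : Fin s → MvPolynomial (Fin (N + 1)) K} {q : Fin s → ℕ} {e : Fin s → Fin ν → ℕ} {E : Type}
    [Field E] [Algebra K E] {p : Fin (N + 1) → E[X]} (hp : CCur FF Q e p) :
    ∃ (n : ℕ) (p' : JJ N s ν → E[X]), (∀ j, p' (jx N s ν j) = p j) ∧
      JCur n (jx N s ν) (FFJ FF Q q e) QJ p' := by
  classical
  obtain ⟨a, c', k', hc', ha⟩ := hp.cop
  choose c k g hc hg hQ using hp.orb
  let p' : JJ N s ν → E[X] := Sum.elim p (Sum.elim (fun v => g v.1 v.2)
    (Sum.elim (fun i => C (c i) * X ^ k i) (Sum.elim a (Sum.elim (fun _ => C c' * X ^ k')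
      fun _ => 1))))
  refine ⟨Finset.univ.sup fun j => (p' j).natDegree, p', fun j => rfl,
    fun j => Finset.le_sup (f := fun j => (p' j).natDegree) (Finset.mem_univ j), ?_, ?_, hp.nc⟩
  · rintro F (⟨F, hF, rfl⟩ | ⟨i, rfl⟩ | rfl)
    · rw [ev_ren]
      exact hp.zero F hF
    · rw [ev_rel]
      change MvPolynomial.aeval p (Q i) * 1 ^ (1 + ∑ j, e i j) -
        C (c i) * X ^ k i * (∏ j, g i j ^ e i j) * 1 ^ q i = 0
      rw [hQ i, one_pow, one_pow]
      ring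
    · rw [ev_relc]
      change (∑ j, a j * p j) - C c' * X ^ k' * 1 = 0
      rw [ha]
      ring
  · refine ⟨c' * ∏ i, c i, k' + ∑ i, k i, mul_ne_zero hc' (Finset.prod_ne_zero_iff.2 fun i _ => hc i),
      ?_⟩
    rw [ev_QJ]
    change 1 * (C c' * X ^ k' * ∏ i, C (c i) * X ^ k i) = _
    rw [Finset.prod_mul_distrib, Finset.prod_pow_eq_pow_sum, C_mul, map_prod, pow_add]
    ring

/-- sequences of points -/
theorem cpts_jpts {FF : Set (MvPolynomial (Fin (N + 1)) K)}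
    {Q : Fin s → MvPolynomial (Fin (N + 1)) K} {q : Fin s → ℕ} {e : Fin s → Fin ν → ℕ} {L : Type}
    [Field L] [Algebra K L] {R l : ℕ} {P : ℕ → ℙ L (Fin (N + 1) → L)}
    (h : CPts FF Q e L R l P) : JPts (jx N s ν) (FFJ FF Q q e) QJ L (R + 1) l P := by
  classical
  obtain ⟨x, hP, hX, hrec, ⟨c', μ', a, hc', hμ', harec, ha⟩, hQ⟩ := h
  choose c μ g hc hμ hgrec hg using hQ
  let y : ℕ → JJ N s ν → L := fun t => Sum.elim (x t) (Sum.elim (fun v => g v.1 t v.2)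
    (Sum.elim (fun i => c i * μ i ^ t) (Sum.elim (a t) (Sum.elim (fun _ => c' * μ' ^ t)
      fun _ => 1))))
  refine ⟨y, hP, ?_, ?_, c' * ∏ i, c i, μ' * ∏ i, μ i,
    mul_ne_zero hc' (Finset.prod_ne_zero_iff.2 fun i _ => hc i),
    mul_ne_zero hμ' (Finset.prod_ne_zero_iff.2 fun i _ => hμ i), fun t ht => ?_⟩
  · rintro t ht F (⟨F, hF, rfl⟩ | ⟨i, rfl⟩ | rfl)
    · rw [ev_ren]
      exact hX t ht F hF
    · rw [ev_rel]
      change MvPolynomial.aeval (x t) (Q i) * 1 ^ (1 + ∑ j, e i j) -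
        c i * μ i ^ t * (∏ j, g i t j ^ e i j) * 1 ^ q i = 0
      rw [(hg i t ht).2, one_pow, one_pow]
      ring
    · rw [ev_relc]
      change (∑ j, a t j * x t j) - c' * μ' ^ t * 1 = 0
      rw [ha t ht]
      ring
  · rintro (j | v | i | j | u | u)
    · exact (hrec j).mono (Nat.le_succ R)
    · exact (hgrec v.1 v.2).mono (Nat.le_succ R)
    · exact cfin_geom R l (c i) (hμ i)
    · exact (harec j).mono (Nat.le_succ R)
    · exact cfin_geom R l c' hμ'
    · have h1 := cfin_geom R l (1 : L) (μ := 1) one_ne_zero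
      simp only [one_pow, mul_one] at h1
      exact h1
  · rw [ev_QJ]
    change 1 * (c' * μ' ^ t * ∏ i, c i * μ i ^ t) = _
    rw [Finset.prod_mul_distrib, Finset.prod_pow, mul_pow]
    ring

/-- the powers of two on a curve -/
theorem jcur_seq {n : ℕ} {FF : Set (MvPolynomial (Fin (N + 1)) K)}
    {Q : Fin s → MvPolynomial (Fin (N + 1)) K} {q : Fin s → ℕ} {e : Fin s → Fin ν → ℕ} {E : Type}
    [Field E] [CharZero E] [Algebra K E] {p : JJ N s ν → E[X]}
    (hp : JCur n (jx N s ν) (FFJ FF Q q e) QJ p)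
    {G : MvPolynomial (Fin (N + 1)) K}
    (hG : MvPolynomial.aeval (fun j => p (jx N s ν j)) (G * ∏ i, Q i) ≠ 0) :
    ∃ (x : ℕ → Fin (N + 1) → E) (hne : ∀ m, x m ≠ 0),
      (∀ l, CPts FF Q e E (n + 1) l fun t => Projectivization.mk E (x t) (hne t)) ∧
      (∀ m, MvPolynomial.aeval (x m) G ≠ 0) ∧
      (Set.range fun m => Projectivization.mk E (x m) (hne m)).Infinite := by
  classical
  obtain ⟨cc, k, hcc, hk⟩ := hp.mono
  rw [ev_QJ] at hk
  obtain ⟨a0, k0, ha0, hz0⟩ := dvd_mono hcc hk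
  have hk' : (p (jw N s ν) * ∏ i, p (jz i)) * p (j0 N s ν) = C cc * X ^ k := by
    rw [← hk]
    ring
  obtain ⟨a1, k1, ha1, hz1⟩ := dvd_mono hcc hk'
  obtain ⟨a2, k2, ha2, hz2⟩ := dvd_mono ha1 hz1
  have hz1' : (∏ i, p (jz i)) * p (jw N s ν) = C a1 * X ^ k1 := by
    rw [← hz1]
    ring
  obtain ⟨a3, k3, ha3, hz3⟩ := dvd_mono ha1 hz1'
  choose a k' ha hz using fun i => dvd_mono' ha3 hz3 i
  obtain ⟨v, hne, h1, h2⟩ := pow_curve hp.nc hG
  have h2ne : ∀ m : ℕ, (2 : E) ^ m ≠ 0 := fun m => pow_ne_zero _ two_ne_zero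
  have h3 : ∀ m : ℕ, MvPolynomial.aeval (fun j => (p (jx N s ν j)).eval ((2 : E) ^ (m + v))) G ≠ 0 ∧
      ∀ i, MvPolynomial.aeval (fun j => (p (jx N s ν j)).eval ((2 : E) ^ (m + v))) (Q i) ≠ 0 := by
    intro m
    have h4 := h1 m
    rw [map_mul, map_prod] at h4
    exact ⟨left_ne_zero_of_mul h4, fun i => (Finset.prod_ne_zero_iff.1
      (right_ne_zero_of_mul h4)) i (Finset.mem_univ i)⟩
  refine ⟨fun m j => (p (jx N s ν j)).eval (2 ^ (m + v)), hne, fun l => ?_, fun m => (h3 m).1, h2⟩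
  have hcf : ∀ j, CFin (n + 1) l fun t => (p j).eval ((2 : E) ^ (t + v)) := fun j =>
    cfin_poly l v (p j) (Nat.lt_succ_of_le (hp.deg j))
  refine ⟨fun m j => (p (jx N s ν j)).eval (2 ^ (m + v)), fun t _ => ⟨hne t, rfl⟩,
    fun t _ F hF => ?_, fun j => hcf _, ?_, fun i => ?_⟩
  · have h4 := hp.zero _ (Or.inl ⟨F, hF, rfl⟩)
    rw [ev_ren] at h4
    rw [← eval_aevalJ (fun j => p (jx N s ν j)), h4, eval_zero]
  · refine ⟨a2 * a0 * 2 ^ (v * (k2 + k0)), 2 ^ (k2 + k0), fun t j => (p (ja j)).eval (2 ^ (t + v)),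
      mul_ne_zero (mul_ne_zero ha2 ha0) (h2ne _), h2ne _, fun j => hcf _, fun t _ => ?_⟩
    have h4 := hp.zero _ (Or.inr (Or.inr rfl))
    rw [ev_relc, sub_eq_zero, hz2, hz0] at h4
    have h5 := congrArg (Polynomial.eval ((2 : E) ^ (t + v))) h4
    rw [eval_finsetSum] at h5
    simp only [eval_mul, eval_C, eval_pow, eval_X] at h5
    rw [h5]
    have h6 : ((2 : E) ^ (k2 + k0)) ^ t * 2 ^ (v * (k2 + k0)) =
        (2 ^ (t + v)) ^ k2 * (2 ^ (t + v)) ^ k0 := by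
      rw [← pow_mul, ← pow_mul, ← pow_mul, ← pow_add, ← pow_add]
      congr 1
      ring
    linear_combination (a2 * a0) * (-h6)
  · set σ : ℕ := ∑ j, e i j with hσ
    refine ⟨a i * a0 ^ q i / a0 ^ (1 + σ) * (2 ^ (v * (k' i + k0 * q i)) / 2 ^ (v * (k0 * (1 + σ)))),
      2 ^ (k' i + k0 * q i) / 2 ^ (k0 * (1 + σ)), fun t j => (p (jg (i, j))).eval (2 ^ (t + v)),
      mul_ne_zero (div_ne_zero (mul_ne_zero (ha i) (pow_ne_zero _ ha0)) (pow_ne_zero _ ha0))
        (div_ne_zero (h2ne _) (h2ne _)), div_ne_zero (h2ne _) (h2ne _), fun j => hcf _,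
      fun t _ => ⟨(h3 t).2 i, ?_⟩⟩
    have h4 := hp.zero _ (Or.inr (Or.inl ⟨i, rfl⟩))
    rw [ev_rel, hz i, hz0, sub_eq_zero] at h4
    have h5 := congrArg (Polynomial.eval ((2 : E) ^ (t + v))) h4
    simp only [eval_mul, eval_C, eval_pow, eval_X, eval_prod] at h5
    rw [eval_aevalJ (fun j => p (jx N s ν j))] at h5
    set A := MvPolynomial.aeval (fun j => (p (jx N s ν j)).eval ((2 : E) ^ (t + v))) (Q i) with hA
    set B := ∏ j, (p (jg (i, j))).eval ((2 : E) ^ (t + v)) ^ e i j with hB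
    rw [← hσ] at h5
    have h6 : ((2 : E) ^ (k' i + k0 * q i) / 2 ^ (k0 * (1 + σ))) ^ t *
        (2 ^ (v * (k' i + k0 * q i)) / 2 ^ (v * (k0 * (1 + σ)))) =
        ((2 ^ (t + v)) ^ k' i * ((2 ^ (t + v)) ^ k0) ^ q i) /
          ((2 ^ (t + v)) ^ k0) ^ (1 + σ) := by
      rw [div_pow, div_mul_div_comm]
      congr 1
      · rw [← pow_mul, ← pow_mul, ← pow_mul, ← pow_mul, ← pow_add, ← pow_add]
        congr 1
        ring
      · rw [← pow_mul, ← pow_mul, ← pow_mul, ← pow_add]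
        congr 1
        ring
    have h7 : ((2 : E) ^ (t + v)) ^ k0 ≠ 0 := pow_ne_zero _ (h2ne _)
    have h8 : a0 ^ (1 + σ) ≠ 0 := pow_ne_zero _ ha0
    have h9 : (((2 : E) ^ (t + v)) ^ k0) ^ (1 + σ) ≠ 0 := pow_ne_zero _ h7
    calc A = A * (a0 * (2 ^ (t + v)) ^ k0) ^ (1 + σ) /
          (a0 ^ (1 + σ) * ((2 ^ (t + v)) ^ k0) ^ (1 + σ)) := by
            rw [mul_pow, mul_div_assoc, div_self (mul_ne_zero h8 h9), mul_one]
      _ = a i * a0 ^ q i / a0 ^ (1 + σ) * (((2 ^ (t + v)) ^ k' i * ((2 ^ (t + v)) ^ k0) ^ q i) /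
          ((2 ^ (t + v)) ^ k0) ^ (1 + σ)) * B := by
            rw [h5, mul_pow]
            field_simp
      _ = _ := by
            rw [← h6]
            ring

end aux

end Pool.Agent.Q183.UE
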