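import Mathlib

/-!
Definitions: sequences of points with recurrences with constant coefficients, images of the
multiplicative group.
-/

set_option autoImplicit false

namespace Pool.Agent.Q183.UE

open Polynomial
open scoped LinearAlgebra.Projectivization

/-- `f 0, ..., f (l - 1)` satisfy a linear recurrence of order at most `R` with constant
coefficients, the first and the last of which are not zero. -/
def CFin {K : Type} [Field K] (R l : ℕ) (f : ℕ → K) : Prop :=
  ∃ (q : ℕ) (a : ℕ → K), q ≤ R ∧ a 0 ≠ 0 ∧ a q ≠ 0 ∧
    ∀ m, m + q < l → ∑ k ∈ Finset.range (q + 1), a k * f (m + k) = 0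

variable {N : ℕ}

/-- the forms of an ideal -/
def forms {K : Type} [Field K] (Z : Ideal (MvPolynomial (Fin (N + 1)) K)) :
    Set (MvPolynomial (Fin (N + 1)) K) := {G | G ∈ Z ∧ ∃ d, G.IsHomogeneous d}

/-- The point is in the closed subset of projective space defined by the ideal `Z`. -/
def InI {K : Type} [Field K] (Z : Ideal (MvPolynomial (Fin (N + 1)) K)) {L : Type}
    [Field L] [Algebra K L] (P : ℙ L (Fin (N + 1) → L)) : Prop :=
  ∀ G ∈ Z, MvPolynomial.aeval P.rep G = 0

/-- The point is in the hypersurface defined by the form `G`. -/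
def OnG {K : Type} [Field K] (G : MvPolynomial (Fin (N + 1)) K) {L : Type}
    [Field L] [Algebra K L] (P : ℙ L (Fin (N + 1) → L)) : Prop :=
  MvPolynomial.aeval P.rep G = 0

end Pool.Agent.Q183.UE
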