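import Pool.Agent.Q183.UE.Main2

/-!
Families of maps of bounded degree from the multiplicative group.
-/

set_option autoImplicit false

namespace Pool.Agent.Q183.UE

open Polynomial

variable {N : ℕ} {J : Type}

/-- Polynomials `p j` of degree at most `n` which satisfy the equations `FF` and for which `Q (p)`
is a monomial, such that the point with the coordinates `p (φ i)` is not constant. -/
structure JCur (n : ℕ) (φ : Fin (N + 1) → J) {K : Type} [Field K] (FF : Set (MvPolynomial J K))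
    (Q : MvPolynomial J K) {E : Type} [Field E] [Algebra K E] (p : J → E[X]) : Prop where
  deg : ∀ j, (p j).natDegree ≤ n
  zero : ∀ F ∈ FF, MvPolynomial.aeval p F = 0
  mono : ∃ (c : E) (k : ℕ), c ≠ 0 ∧ MvPolynomial.aeval p Q = C c * X ^ k
  nc : ∃ i j a b, (p (φ i)).coeff a * (p (φ j)).coeff b ≠ (p (φ j)).coeff a * (p (φ i)).coeff b

/-- the ideal generated by the forms which vanish on the curve -/
noncomputable def Zid {K E : Type} [Field K] [Field E] [Algebra K E] (p : Fin (N + 1) → E[X]) :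
    Ideal (MvPolynomial (Fin (N + 1)) K) :=
  RingHom.ker (MvPolynomial.aeval (R := K) fun j => (C (p j) * X : E[X][X]))

theorem aeval_CX {K E : Type} [Field K] [Field E] [Algebra K E] (p : Fin (N + 1) → E[X])
    {G : MvPolynomial (Fin (N + 1)) K} {d : ℕ} (hG : G.IsHomogeneous d) :
    MvPolynomial.aeval (fun j => (C (p j) * X : E[X][X])) G =
      C (MvPolynomial.aeval p G) * X ^ d := by
  classical
  rw [MvPolynomial.aeval_def, MvPolynomial.aeval_def, MvPolynomial.eval₂_eq, MvPolynomial.eval₂_eq,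
    map_sum, Finset.sum_mul]
  refine Finset.sum_congr rfl fun α hα => ?_
  have h1 := hG (MvPolynomial.mem_support_iff.1 hα)
  rw [Finsupp.weight_apply, Finsupp.sum] at h1
  have h2 : ∑ i ∈ α.support, α i = d := by simpa using h1
  rw [map_mul, map_prod, ← h2, ← Finset.prod_pow_eq_pow_sum]
  have h3 : ∏ i ∈ α.support, (C (p i) * X : E[X][X]) ^ α i =
      (∏ i ∈ α.support, C (p i ^ α i)) * ∏ i ∈ α.support, X ^ α i := by
    rw [← Finset.prod_mul_distrib]
    exact Finset.prod_congr rfl fun i _ => by rw [mul_pow, C_pow]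
  rw [h3, ← mul_assoc]
  rfl

theorem mem_Zid {K E : Type} [Field K] [Field E] [Algebra K E] {p : Fin (N + 1) → E[X]}
    {G : MvPolynomial (Fin (N + 1)) K} :
    G ∈ Zid (K := K) p ↔ ∀ d, MvPolynomial.aeval p (MvPolynomial.homogeneousComponent d G) = 0 := by
  classical
  have h1 : MvPolynomial.aeval (fun j => (C (p j) * X : E[X][X])) G =
      ∑ d ∈ Finset.range (G.totalDegree + 1),
        C (MvPolynomial.aeval p (MvPolynomial.homogeneousComponent d G)) * X ^ d := by
    conv_lhs => rw [← MvPolynomial.sum_homogeneousComponent (φ := G)]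
    rw [map_sum]
    exact Finset.sum_congr rfl fun d _ =>
      aeval_CX p (MvPolynomial.homogeneousComponent_isHomogeneous d G)
  unfold Zid
  rw [RingHom.mem_ker, h1]
  constructor
  · intro h d
    by_cases hd : d < G.totalDegree + 1
    · have h2 := congrArg (fun P => Polynomial.coeff P d) h
      simp only [finsetSum_coeff, coeff_C_mul_X_pow, coeff_zero] at h2
      rw [Finset.sum_ite_eq, if_pos (Finset.mem_range.2 hd)] at h2
      exact h2
    · rw [MvPolynomial.homogeneousComponent_eq_zero _ _ (by omega), map_zero]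
  · intro h
    refine Finset.sum_eq_zero fun d _ => ?_
    rw [h d, C_0, zero_mul]

theorem form_mem_Zid {K E : Type} [Field K] [Field E] [Algebra K E] {p : Fin (N + 1) → E[X]}
    {G : MvPolynomial (Fin (N + 1)) K} {d : ℕ} (hG : G.IsHomogeneous d) :
    G ∈ Zid (K := K) p ↔ MvPolynomial.aeval p G = 0 := by
  rw [mem_Zid]
  constructor
  · intro h
    have h1 := h d
    rwa [MvPolynomial.homogeneousComponent_eq_self hG] at h1
  · intro h d'
    rw [MvPolynomial.homogeneousComponent_of_mem ((MvPolynomial.mem_homogeneousSubmodule _ _).2 hG)]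
    split_ifs with h1
    · exact h
    · exact map_zero _

theorem Zid_prime {K E : Type} [Field K] [Field E] [Algebra K E] (p : Fin (N + 1) → E[X]) :
    (Zid (K := K) p).IsPrime := RingHom.ker_isPrime _

theorem Zid_hom {K E : Type} [Field K] [Field E] [Algebra K E] {p : Fin (N + 1) → E[X]}
    {G : MvPolynomial (Fin (N + 1)) K} (hG : G ∈ Zid (K := K) p) (d : ℕ) :
    MvPolynomial.homogeneousComponent d G ∈ Zid (K := K) p := by
  rw [form_mem_Zid (MvPolynomial.homogeneousComponent_isHomogeneous d G)]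
  exact mem_Zid.1 hG d

section univ

variable (J) (K : Type) [Field K] (n : ℕ)

/-- the universal polynomials -/
noncomputable def uP (j : J) : (MvPolynomial (J × Fin (n + 1)) K)[X] :=
  ∑ a : Fin (n + 1), C (MvPolynomial.X (j, a)) * X ^ (a : ℕ)

variable {J K n}

/-- the equations of the family -/
noncomputable def uI (FF : Set (MvPolynomial J K)) (Q : MvPolynomial J K) (κ : ℕ) :
    Ideal (MvPolynomial (J × Fin (n + 1)) K) :=
  Ideal.span ({a | ∃ F ∈ FF, ∃ w, a = (MvPolynomial.aeval (uP J K n) F).coeff w} ∪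
    {a | ∃ w, w ≠ κ ∧ a = (MvPolynomial.aeval (uP J K n) Q).coeff w})

theorem map_uP {E : Type} [Field E] [Algebra K E] (φ : MvPolynomial (J × Fin (n + 1)) K →ₐ[K] E)
    (j : J) : mapAlgHom φ (uP J K n j) =
      ∑ a : Fin (n + 1), C (φ (MvPolynomial.X (j, a))) * X ^ (a : ℕ) := by
  unfold uP
  rw [map_sum]
  refine Finset.sum_congr rfl fun a _ => ?_
  rw [map_mul, map_pow, coe_mapAlgHom, Polynomial.map_C, Polynomial.map_X]
  rfl

theorem map_aev {I A E : Type} [CommRing A] [Algebra K A] [CommRing E] [Algebra K E]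
    (φ : A →ₐ[K] E) (P : I → A[X]) (F : MvPolynomial I K) :
    mapAlgHom φ (MvPolynomial.aeval P F) = MvPolynomial.aeval (fun j => mapAlgHom φ (P j)) F := by
  rw [MvPolynomial.comp_aeval_apply]

theorem coeff_mapAlg {A E : Type} [CommRing A] [Algebra K A] [CommRing E] [Algebra K E]
    (φ : A →ₐ[K] E) (f : A[X]) (w : ℕ) : (mapAlgHom φ f).coeff w = φ (f.coeff w) := by
  rw [coe_mapAlgHom, Polynomial.coeff_map]
  rfl

theorem uP_deg {E : Type} [Field E] [Algebra K E]
    (φ : MvPolynomial (J × Fin (n + 1)) K →ₐ[K] E) (j : J) :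
    (mapAlgHom φ (uP J K n j)).natDegree ≤ n := by
  rw [map_uP]
  refine natDegree_sum_le_of_forall_le _ _ fun a _ => ?_
  refine (natDegree_C_mul_X_pow_le _ _).trans ?_
  have := a.2
  omega

theorem eq_mono {E : Type} [Field E] {f : E[X]} {κ : ℕ} (h : ∀ w, w ≠ κ → f.coeff w = 0) :
    f = C (f.coeff κ) * X ^ κ := by
  ext w
  rw [coeff_C_mul_X_pow]
  split_ifs with h1
  · rw [h1]
  · exact h w h1

end univ

/-- **Families of curves of bounded degree.** -/
theorem curve_list [Fintype J] {φ : Fin (N + 1) → J} {K : Type} [Field K]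
    (FF : Set (MvPolynomial J K)) (Q : MvPolynomial J K) {D : ℕ}
    (hQ : ∃ q, q ≤ D ∧ Q.IsHomogeneous q) (n : ℕ) :
    ∃ T : Set (Ideal (MvPolynomial (Fin (N + 1)) K)), T.Finite ∧
      (∀ Z ∈ T, ∃ (M : Type) (_ : Field M) (_ : Algebra K M) (p : J → M[X]),
        JCur n φ FF Q p ∧ Z = Zid (fun i => p (φ i)) ∧
        ∃ (ι : Type) (_ : Fintype ι) (v : ι → M), IntermediateField.adjoin K (Set.range v) = ⊤) ∧
      ∀ (E : Type) [Field E] [Algebra K E] (p : J → E[X]), JCur n φ FF Q p →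
        ∃ Z ∈ T, ∀ G ∈ Z, ∀ d, MvPolynomial.aeval (fun i => p (φ i))
          (MvPolynomial.homogeneousComponent d G) = 0 := by
  classical
  let A : Type := MvPolynomial (J × Fin (n + 1)) K
  let I : Fin (D * n + 1) → Ideal A := fun κ => uI FF Q κ
  -- the generic curve of a prime ideal
  let good : Ideal A → Ideal (MvPolynomial (Fin (N + 1)) K) → Prop := fun 𝔭 Z =>
    ∃ (_ : 𝔭.IsPrime), JCur n φ FF Q (fun j => mapAlgHom
      ((IsScalarTower.toAlgHom K (A ⧸ 𝔭) (FractionRing (A ⧸ 𝔭))).comp (Ideal.Quotient.mkₐ K 𝔭))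
        (uP J K n j)) ∧ Z = Zid (K := K) (fun i => mapAlgHom
      ((IsScalarTower.toAlgHom K (A ⧸ 𝔭) (FractionRing (A ⧸ 𝔭))).comp (Ideal.Quotient.mkₐ K 𝔭))
        (uP J K n (φ i)))
  let T : Set (Ideal (MvPolynomial (Fin (N + 1)) K)) :=
    {Z | ∃ κ, ∃ 𝔭 ∈ (I κ).minimalPrimes, good 𝔭 Z}
  refine ⟨T, ?_, ?_, ?_⟩
  · have h1 : (⋃ κ, (I κ).minimalPrimes).Finite := Set.finite_iUnion fun κ =>
      Ideal.finite_minimalPrimes_of_isNoetherianRing A (I κ)
    let f : Ideal A → Ideal (MvPolynomial (Fin (N + 1)) K) := fun 𝔭 =>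
      if h : ∃ Z, good 𝔭 Z then h.choose else ⊤
    refine (h1.image f).subset ?_
    rintro Z ⟨κ, 𝔭, h𝔭, hZ⟩
    refine ⟨𝔭, Set.mem_iUnion.2 ⟨κ, h𝔭⟩, ?_⟩
    have h2 : ∃ Z, good 𝔭 Z := ⟨Z, hZ⟩
    simp only [f]
    rw [dif_pos h2]
    obtain ⟨_, _, h3⟩ := h2.choose_spec
    obtain ⟨_, _, h4⟩ := hZ
    rw [h3, h4]
  · rintro Z ⟨κ, 𝔭, h𝔭, hpr, h1, h2⟩
    refine ⟨FractionRing (A ⧸ 𝔭), inferInstance, inferInstance, _, h1, h2, J × Fin (n + 1),
      inferInstance, fun v => algebraMap (A ⧸ 𝔭) (FractionRing (A ⧸ 𝔭))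
        (Ideal.Quotient.mk 𝔭 (MvPolynomial.X v)), ?_⟩
    rw [eq_top_iff]
    rintro z -
    have hmem : ∀ b : A ⧸ 𝔭, algebraMap (A ⧸ 𝔭) (FractionRing (A ⧸ 𝔭)) b ∈
        IntermediateField.adjoin K (Set.range fun v => algebraMap (A ⧸ 𝔭) (FractionRing (A ⧸ 𝔭))
          (Ideal.Quotient.mk 𝔭 (MvPolynomial.X v))) := by
      intro b
      obtain ⟨a, rfl⟩ := Ideal.Quotient.mk_surjective b
      induction a using MvPolynomial.induction_on with
      | C r =>
        have h3 : algebraMap (A ⧸ 𝔭) (FractionRing (A ⧸ 𝔭)) (Ideal.Quotient.mk 𝔭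
            (MvPolynomial.C r)) = algebraMap K (FractionRing (A ⧸ 𝔭)) r := rfl
        rw [h3]
        exact IntermediateField.algebraMap_mem _ r
      | add a b ha hb =>
        rw [map_add, map_add]
        exact add_mem ha hb
      | mul_X a v ha =>
        rw [map_mul, map_mul]
        exact mul_mem ha (IntermediateField.subset_adjoin K _ ⟨v, rfl⟩)
    obtain ⟨a, b, hb, rfl⟩ := IsFractionRing.div_surjective (A := A ⧸ 𝔭) z
    exact div_mem (hmem a) (hmem b)
  · intro E _ _ p hp
    obtain ⟨c, k, hc, hk⟩ := hp.mono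
    have hkD : k ≤ D * n := by
      obtain ⟨q, hq, hQq⟩ := hQ
      have h1 : MvPolynomial.aeval p Q =
          MvPolynomial.aeval p (MvPolynomial.map (algebraMap K E) Q) := by
        rw [MvPolynomial.aeval_def, MvPolynomial.aeval_def, MvPolynomial.eval₂_map]
        rfl
      have h2 : (MvPolynomial.aeval p Q).natDegree ≤ D * n := by
        rw [h1]
        refine MvPolynomial.aeval_natDegree_le _ ?_ _ hp.deg
        exact (hQq.map _).totalDegree_le.trans hq
      rwa [hk, natDegree_C_mul_X_pow k c hc] at h2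
    let κ : Fin (D * n + 1) := ⟨k, Nat.lt_succ_of_le hkD⟩
    let χ : A →ₐ[K] E := MvPolynomial.aeval (fun v => (p v.1).coeff v.2)
    have hφP : ∀ j, mapAlgHom χ (uP J K n j) = p j := by
      intro j
      rw [map_uP]
      conv_rhs => rw [(p j).as_sum_range_C_mul_X_pow' (Nat.lt_succ_of_le (hp.deg j)),
        Finset.sum_range]
      refine Finset.sum_congr rfl fun a _ => ?_
      simp only [χ]
      rw [MvPolynomial.aeval_X]
    have hφF : ∀ F : MvPolynomial J K,
        mapAlgHom χ (MvPolynomial.aeval (uP J K n) F) = MvPolynomial.aeval p F := by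
      intro F
      rw [map_aev]
      congr 2
      funext j
      exact hφP j
    have hker : I κ ≤ RingHom.ker χ := by
      refine Ideal.span_le.2 ?_
      rintro a (⟨F, hF, w, rfl⟩ | ⟨w, hw, rfl⟩)
      · change χ _ = 0
        rw [← coeff_mapAlg, hφF, hp.zero F hF, coeff_zero]
      · change χ _ = 0
        rw [← coeff_mapAlg, hφF, hk, coeff_C_mul_X_pow, if_neg hw]
    have hkp : (RingHom.ker χ).IsPrime := RingHom.ker_isPrime _
    obtain ⟨𝔭, h𝔭, hle⟩ := Ideal.exists_minimalPrimes_le hker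
    have hpr : 𝔭.IsPrime := h𝔭.1.1
    have hI𝔭 : I κ ≤ 𝔭 := h𝔭.1.2
    let ψ : A →ₐ[K] FractionRing (A ⧸ 𝔭) :=
      (IsScalarTower.toAlgHom K (A ⧸ 𝔭) (FractionRing (A ⧸ 𝔭))).comp (Ideal.Quotient.mkₐ K 𝔭)
    have hψ : ∀ a, ψ a = 0 ↔ a ∈ 𝔭 := by
      intro a
      have h1 : ψ a = algebraMap (A ⧸ 𝔭) (FractionRing (A ⧸ 𝔭)) (Ideal.Quotient.mk 𝔭 a) := rfl
      rw [h1]
      constructor
      · intro h2
        rw [← Ideal.Quotient.eq_zero_iff_mem]
        exact IsFractionRing.injective (A ⧸ 𝔭) (FractionRing (A ⧸ 𝔭)) (by rw [h2, map_zero])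
      · intro h2
        rw [Ideal.Quotient.eq_zero_iff_mem.2 h2, map_zero]
    have hψφ : ∀ a, ψ a = 0 → χ a = 0 := fun a ha => hle ((hψ a).1 ha)
    have hψφX : ∀ f : A[X], mapAlgHom ψ f = 0 → mapAlgHom χ f = 0 := by
      intro f hf
      ext w
      rw [coeff_mapAlg, coeff_zero]
      apply hψφ
      rw [← coeff_mapAlg, hf, coeff_zero]
    have hψF : ∀ F : MvPolynomial J K, MvPolynomial.aeval (fun j =>
        mapAlgHom ψ (uP J K n j)) F = mapAlgHom ψ (MvPolynomial.aeval (uP J K n) F) := fun F =>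
      (map_aev ψ _ F).symm
    have hcur : JCur n φ FF Q (fun j => mapAlgHom ψ (uP J K n j)) := by
      refine ⟨fun j => uP_deg ψ j, fun F hF => ?_, ?_, ?_⟩
      · rw [hψF]
        ext w
        rw [coeff_mapAlg, coeff_zero]
        exact (hψ _).2 (hI𝔭 (Ideal.subset_span (Or.inl ⟨F, hF, w, rfl⟩)))
      · refine ⟨(mapAlgHom ψ (MvPolynomial.aeval (uP J K n) Q)).coeff k, k, fun h0 => ?_, ?_⟩
        · rw [coeff_mapAlg] at h0
          have h1 := hψφ _ h0
          rw [← coeff_mapAlg, hφF, hk, coeff_C_mul_X_pow, if_pos rfl] at h1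
          exact hc h1
        · rw [hψF]
          apply eq_mono
          intro w hw
          rw [coeff_mapAlg]
          exact (hψ _).2 (hI𝔭 (Ideal.subset_span (Or.inr ⟨w, hw, rfl⟩)))
      · obtain ⟨i, j, a, b, hne⟩ := hp.nc
        refine ⟨i, j, a, b, fun h0 => hne ?_⟩
        simp only [coeff_mapAlg] at h0
        have h1 := hψφ ((uP J K n (φ i)).coeff a * (uP J K n (φ j)).coeff b -
          (uP J K n (φ j)).coeff a * (uP J K n (φ i)).coeff b) (by
          rw [map_sub, map_mul, map_mul, h0, sub_self])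
        rw [map_sub, map_mul, map_mul, ← coeff_mapAlg, ← coeff_mapAlg, ← coeff_mapAlg,
          ← coeff_mapAlg, hφP, hφP, sub_eq_zero] at h1
        exact h1
    refine ⟨_, ⟨κ, 𝔭, h𝔭, hpr, hcur, rfl⟩, fun G hG d => ?_⟩
    have h1 := mem_Zid.1 hG d
    have h2 : mapAlgHom ψ (MvPolynomial.aeval (fun i => uP J K n (φ i))
        (MvPolynomial.homogeneousComponent d G)) = 0 := by
      rw [map_aev]
      exact h1
    have h3 := hψφX _ h2
    rw [map_aev] at h3
    simp only [hφP] at h3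
    exact h3

/-! ### specialisation to finite extensions -/

theorem spec_alg {K E : Type} [Field K] [Field E] [Algebra K E] (S : Finset E) {z : E} (hz : z ≠ 0) :
    ∃ (R : Subalgebra K E) (K' : Type) (_ : Field K') (_ : Algebra K K')
      (_ : FiniteDimensional K K') (φ : R →ₐ[K] K'), (∀ x ∈ S, x ∈ R) ∧
      ∀ r : R, (∃ r' : R, (r : E) * r' = z) → φ r ≠ 0 := by
  classical
  let R : Subalgebra K E := Algebra.adjoin K ((S ∪ {z⁻¹} : Finset E) : Set E)
  have hft : Algebra.FiniteType K R := by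
    rw [← Subalgebra.fg_iff_finiteType]
    exact Subalgebra.fg_adjoin_finset _
  have hS : ∀ x ∈ S, x ∈ R := fun x hx => Algebra.subset_adjoin (by
    rw [Finset.coe_union]
    exact Or.inl hx)
  have hz' : z⁻¹ ∈ R := Algebra.subset_adjoin (by
    rw [Finset.coe_union]
    exact Or.inr (by rw [Finset.coe_singleton]; exact rfl))
  obtain ⟨m, hm⟩ := Ideal.exists_maximal R
  let K' : Type := R ⧸ m
  let _ : Field K' := Ideal.Quotient.field m
  let φ : R →ₐ[K] K' := Ideal.Quotient.mkₐ K m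
  have hφ : Function.Surjective φ := Ideal.Quotient.mkₐ_surjective K m
  have : Algebra.FiniteType K K' := Algebra.FiniteType.of_surjective φ hφ
  have : Module.Finite K K' := finite_of_finite_type_of_isJacobsonRing K K'
  refine ⟨R, K', inferInstance, inferInstance, this, φ, hS, fun r ⟨r', hr⟩ h0 => ?_⟩
  have h1 : r * r' * ⟨z⁻¹, hz'⟩ = 1 := by
    apply Subtype.val_injective
    change (r : E) * r' * z⁻¹ = 1
    rw [hr, mul_inv_cancel₀ hz]
  have h2 := congrArg φ h1
  rw [map_mul, map_mul, h0, zero_mul, zero_mul, map_one] at h2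
  exact zero_ne_one h2

theorem coeffs_lift {K E : Type} [Field K] [Field E] [Algebra K E] (R : Subalgebra K E) (p : E[X])
    (h : ∀ a, p.coeff a ∈ R) : ∃ P : R[X], P.map (algebraMap R E) = p := by
  rw [← Polynomial.mem_lifts, Polynomial.lifts_iff_coeff_lifts]
  intro a
  exact ⟨⟨p.coeff a, h a⟩, rfl⟩

/-- **Specialisation.** -/
theorem JCur.spec [Fintype J] {n : ℕ} {φ : Fin (N + 1) → J} {K : Type} [Field K]
    {FF : Set (MvPolynomial J K)} {Q : MvPolynomial J K} {E : Type} [Field E]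
    [Algebra K E] {p : J → E[X]} (hp : JCur n φ FF Q p)
    {G : MvPolynomial J K} (hG : MvPolynomial.aeval p G ≠ 0) :
    ∃ (L : Type) (_ : Field L) (_ : Algebra K L) (_ : FiniteDimensional K L)
      (p' : J → L[X]), JCur n φ FF Q p' ∧ MvPolynomial.aeval p' G ≠ 0 := by
  classical
  obtain ⟨hdeg, hzero, ⟨c, k, hc, hk⟩, i0, j0, a0, b0, hnc⟩ := hp
  obtain ⟨w, hw⟩ : ∃ w, (MvPolynomial.aeval p G).coeff w ≠ 0 := by
    by_contra hcon
    push Not at hcon
    exact hG (Polynomial.ext fun w => by rw [hcon w, coeff_zero])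
  set δ : E := (p (φ i0)).coeff a0 * (p (φ j0)).coeff b0 -
    (p (φ j0)).coeff a0 * (p (φ i0)).coeff b0 with hδ
  have hδ0 : δ ≠ 0 := sub_ne_zero.2 hnc
  set γ : E := (MvPolynomial.aeval p G).coeff w with hγ
  let S : Finset E := (Finset.univ.biUnion fun j => ((p j).support.image (p j).coeff))
  obtain ⟨R, K', iF, iA, iFin, χ, hS, hχ⟩ := spec_alg (K := K) S (z := (δ * γ) * c)
    (mul_ne_zero (mul_ne_zero hδ0 hw) hc)
  have hpR : ∀ j a, (p j).coeff a ∈ R := by
    intro j a
    by_cases h0 : (p j).coeff a = 0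
    · rw [h0]; exact zero_mem _
    · exact hS _ (Finset.mem_biUnion.2 ⟨j, Finset.mem_univ _,
        Finset.mem_image.2 ⟨a, mem_support_iff.2 h0, rfl⟩⟩)
  choose P hP using fun j => coeffs_lift R (p j) (hpR j)
  let ι : R[X] →ₐ[K] E[X] := Polynomial.mapAlgHom R.val
  have hinj : Function.Injective ι := Polynomial.map_injective _ Subtype.val_injective
  have hιP : ∀ j, ι (P j) = p j := hP
  have hιF : ∀ F : MvPolynomial J K, ι (MvPolynomial.aeval P F) = MvPolynomial.aeval p F := by
    intro F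
    rw [MvPolynomial.comp_aeval_apply]
    congr 2
    funext j
    exact hιP j
  let Φ : R[X] →ₐ[K] K'[X] := Polynomial.mapAlgHom χ
  have hΦF : ∀ F : MvPolynomial J K, Φ (MvPolynomial.aeval P F) =
      MvPolynomial.aeval (fun j => Φ (P j)) F := by
    intro F
    rw [MvPolynomial.comp_aeval_apply]
  have hPc : ∀ j a, ((P j).coeff a : E) = (p j).coeff a := by
    intro j a
    rw [← hP j, Polynomial.coeff_map]
    rfl
  have hΦc : ∀ (f : R[X]) a, (Φ f).coeff a = χ (f.coeff a) := fun f a => coeff_mapAlg χ f a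
  -- the elements which do not vanish
  have hGR : ((MvPolynomial.aeval P G).coeff w : E) = γ := by
    rw [hγ, ← hιF G]
    change _ = ((MvPolynomial.aeval P G).map (R.val : R →+* E)).coeff w
    rw [Polynomial.coeff_map]
    rfl
  have hcR : ((MvPolynomial.aeval P Q).coeff k : E) = c := by
    have h1 : ι (MvPolynomial.aeval P Q) = C c * X ^ k := by rw [hιF, hk]
    have h2 := congrArg (fun f => Polynomial.coeff f k) h1
    simp only [coeff_C_mul_X_pow, if_true] at h2
    rw [← h2]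
    exact (coeff_mapAlg R.val _ _).symm
  let δR : R := (P (φ i0)).coeff a0 * (P (φ j0)).coeff b0 -
    (P (φ j0)).coeff a0 * (P (φ i0)).coeff b0
  have hδR : (δR : E) = δ := by
    change ((P (φ i0)).coeff a0 : E) * (P (φ j0)).coeff b0 -
      (P (φ j0)).coeff a0 * (P (φ i0)).coeff b0 = _
    rw [hPc, hPc, hPc, hPc]
  have n1 : χ δR ≠ 0 := hχ _ ⟨(MvPolynomial.aeval P G).coeff w * (MvPolynomial.aeval P Q).coeff k, by
    change (δR : E) * (((MvPolynomial.aeval P G).coeff w : E) *
      ((MvPolynomial.aeval P Q).coeff k : E)) = _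
    rw [hδR, hGR, hcR]
    ring⟩
  have n2 : χ ((MvPolynomial.aeval P G).coeff w) ≠ 0 := hχ _ ⟨δR * (MvPolynomial.aeval P Q).coeff k, by
    change (((MvPolynomial.aeval P G).coeff w : E)) * ((δR : E) *
      ((MvPolynomial.aeval P Q).coeff k : E)) = _
    rw [hδR, hGR, hcR]
    ring⟩
  have n3 : χ ((MvPolynomial.aeval P Q).coeff k) ≠ 0 := hχ _
    ⟨δR * (MvPolynomial.aeval P G).coeff w, by
    change (((MvPolynomial.aeval P Q).coeff k : E)) * ((δR : E) *
      ((MvPolynomial.aeval P G).coeff w : E)) = _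
    rw [hδR, hGR, hcR]
    ring⟩
  refine ⟨K', iF, iA, iFin, fun j => Φ (P j), ⟨fun j => ?_, fun F hF => ?_, ?_,
    i0, j0, a0, b0, ?_⟩, ?_⟩
  · have h1 : (Φ (P j)).natDegree ≤ (P j).natDegree := natDegree_map_le
    have h2 : (P j).natDegree = (p j).natDegree := by
      rw [← hP j]
      exact (natDegree_map_eq_of_injective Subtype.val_injective _).symm
    exact (h1.trans h2.le).trans (hdeg j)
  · rw [← hΦF]
    have h1 : MvPolynomial.aeval P F = 0 := hinj (by rw [hιF, hzero F hF, map_zero])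
    rw [h1, map_zero]
  · refine ⟨χ ((MvPolynomial.aeval P Q).coeff k), k, n3, ?_⟩
    rw [← hΦF]
    have h1 : ∀ w, w ≠ k → (MvPolynomial.aeval P Q).coeff w = 0 := by
      intro w hw
      apply Subtype.val_injective
      change R.val ((MvPolynomial.aeval P Q).coeff w) = 0
      rw [← coeff_mapAlg]
      change (ι (MvPolynomial.aeval P Q)).coeff w = 0
      rw [hιF, hk, coeff_C_mul_X_pow, if_neg hw]
    rw [← hΦc]
    apply eq_mono
    intro w hw
    rw [hΦc, h1 w hw, map_zero]
  · intro h2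
    apply n1
    simp only [hΦc] at h2
    change χ ((P (φ i0)).coeff a0 * (P (φ j0)).coeff b0 -
      (P (φ j0)).coeff a0 * (P (φ i0)).coeff b0) = 0
    rw [map_sub, map_mul, map_mul, h2, sub_self]
  · intro h2
    apply n2
    rw [← hΦF] at h2
    rw [← hΦc, h2, coeff_zero]

end Pool.Agent.Q183.UE
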