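import Mathlib

/-!
Multiplicative relations of bounded degree: one-parameter subgroups which satisfy them, and a
uniform exponent.
-/

set_option autoImplicit false

namespace Pool.Agent.Q183.UE

variable {ι : Type} [Fintype ι] [DecidableEq ι]

/-- clearing denominators -/
theorem clear_den (Λ : Set (ι → ℤ)) {w : ι → ℚ}
    (hw : w ∈ Submodule.span ℚ ((fun (γ : ι → ℤ) (i : ι) => (γ i : ℚ)) '' Λ)) :
    ∃ (d : ℕ) (u : ι → ℤ), 0 < d ∧ u ∈ AddSubgroup.closure Λ ∧ ∀ i, (d : ℚ) * w i = u i := by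
  induction hw using Submodule.span_induction with
  | mem w hw =>
    obtain ⟨γ, hγ, rfl⟩ := hw
    exact ⟨1, γ, one_pos, AddSubgroup.subset_closure hγ, fun i => by rw [Nat.cast_one, one_mul]⟩
  | zero => exact ⟨1, 0, one_pos, AddSubgroup.zero_mem _, fun i => by simp⟩
  | add a b _ _ ha hb =>
    obtain ⟨d, u, hd, hu, h⟩ := ha
    obtain ⟨d', u', hd', hu', h'⟩ := hb
    refine ⟨d * d', d' • u + d • u', Nat.mul_pos hd hd', AddSubgroup.add_mem _
      (AddSubgroup.nsmul_mem _ hu _) (AddSubgroup.nsmul_mem _ hu' _), fun i => ?_⟩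
    have e : (d' • u + d • u') i = d' * u i + d * u' i := by
      rw [Pi.add_apply, Pi.smul_apply, Pi.smul_apply, nsmul_eq_mul, nsmul_eq_mul]
    rw [e]
    push_cast
    rw [← h, ← h', Pi.add_apply]
    ring
  | smul c a _ ha =>
    obtain ⟨d, u, hd, hu, h⟩ := ha
    refine ⟨d * c.den, c.num • u, Nat.mul_pos hd c.den_pos, AddSubgroup.zsmul_mem _ hu _,
      fun i => ?_⟩
    simp only [Pi.smul_apply, smul_eq_mul]
    push_cast
    rw [← h]
    have h1 : (c.den : ℚ) * c = c.num := by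
      rw [mul_comm]
      exact Rat.mul_den_eq_num c
    linear_combination (d * a i) * h1

/-- the difference of two unit vectors -/
def ed (i i' : ι) : ι → ℤ := Pi.single i 1 - Pi.single i' 1

/-- a linear form which vanishes on `Λ` and separates what can be separated -/
theorem exists_form (Λ : Set (ι → ℤ)) : ∃ (l : ι → ℤ) (d : ℕ), 0 < d ∧
    (∀ γ ∈ Λ, ∑ i, l i * γ i = 0) ∧ ∀ i i', l i = l i' → (d : ℤ) • ed i i' ∈ AddSubgroup.closure Λ := by
  classical
  let cast : (ι → ℤ) → ι → ℚ := fun γ i => (γ i : ℚ)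
  let W : Submodule ℚ (ι → ℚ) := Submodule.span ℚ (cast '' Λ)
  let A : Submodule ℚ (Module.Dual ℚ (ι → ℚ)) := W.dualAnnihilator
  let ker : (ι → ℚ) → Submodule ℚ A := fun v =>
    LinearMap.ker ((Module.Dual.eval ℚ (ι → ℚ) v).comp A.subtype)
  have hker : ∀ v (f : A), f ∈ ker v ↔ (f : Module.Dual ℚ (ι → ℚ)) v = 0 := fun v f => Iff.rfl
  let s : Finset (Submodule ℚ A) := ((Finset.univ : Finset (ι × ι)).filter fun p =>
    cast (ed p.1 p.2) ∉ W).image fun p => ker (cast (ed p.1 p.2))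
  have hs : ⊤ ∉ s := by
    intro h
    obtain ⟨p, hp, hp'⟩ := Finset.mem_image.1 h
    have h1 := (Finset.mem_filter.1 hp).2
    obtain ⟨f, hf, hfW⟩ := Submodule.exists_le_ker_of_notMem h1
    have hfA : f ∈ A := by
      rw [Submodule.mem_dualAnnihilator]
      exact fun w hw => LinearMap.mem_ker.1 (hfW hw)
    have h2 : (⟨f, hfA⟩ : A) ∈ ker (cast (ed p.1 p.2)) := by
      rw [hp']
      exact Submodule.mem_top
    exact hf h2
  have hne := Subspace.biUnion_ne_univ_of_top_notMem hs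
  obtain ⟨f, hf⟩ := (Set.ne_univ_iff_exists_notMem _).1 hne
  simp only [Set.mem_iUnion, not_exists] at hf
  have hfs : ∀ i i', cast (ed i i') ∉ W → (f : Module.Dual ℚ (ι → ℚ)) (cast (ed i i')) ≠ 0 := by
    intro i i' h h0
    exact hf (ker (cast (ed i i'))) (Finset.mem_image.2 ⟨(i, i'), Finset.mem_filter.2
      ⟨Finset.mem_univ _, h⟩, rfl⟩) ((hker _ f).2 h0)
  -- clear denominators
  let q : ι → ℚ := fun i => (f : Module.Dual ℚ (ι → ℚ)) (Pi.single i 1)
  let b : ℕ := ∏ i, (q i).den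
  have hb : 0 < b := Finset.prod_pos fun i _ => (q i).den_pos
  have hq : ∀ i, ∃ z : ℤ, (z : ℚ) = b * q i := by
    intro i
    obtain ⟨k, hk⟩ : (q i).den ∣ b := Finset.dvd_prod_of_mem _ (Finset.mem_univ i)
    refine ⟨k * (q i).num, ?_⟩
    rw [hk]
    push_cast
    rw [← Rat.mul_den_eq_num (q i)]
    ring
  choose l hl using hq
  have hval : ∀ v : ι → ℤ, ((∑ i, l i * v i : ℤ) : ℚ) =
      b * (f : Module.Dual ℚ (ι → ℚ)) (cast v) := by
    intro v
    have h1 : cast v = ∑ i, (v i : ℚ) • (Pi.single i 1 : ι → ℚ) := by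
      funext j
      rw [Finset.sum_apply, Finset.sum_eq_single j]
      · simp [cast]
      · intro i _ hi
        rw [Pi.smul_apply, Pi.single_eq_of_ne (Ne.symm hi), smul_zero]
      · intro h
        exact absurd (Finset.mem_univ j) h
    rw [h1, map_sum, Finset.mul_sum]
    push_cast
    refine Finset.sum_congr rfl fun i _ => ?_
    rw [map_smul, smul_eq_mul, hl]
    ring
  -- the exponent
  have hd : ∀ p : ι × ι, ∃ d : ℕ, 0 < d ∧ (cast (ed p.1 p.2) ∈ W →
      (d : ℤ) • ed p.1 p.2 ∈ AddSubgroup.closure Λ) := by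
    intro p
    by_cases hp : cast (ed p.1 p.2) ∈ W
    · obtain ⟨d, u, hd, hu, h⟩ := clear_den Λ hp
      refine ⟨d, hd, fun _ => ?_⟩
      have h1 : (d : ℤ) • ed p.1 p.2 = u := by
        funext i
        have h2 := h i
        simp only [cast] at h2
        rw [Pi.smul_apply, smul_eq_mul]
        exact_mod_cast h2
      rw [h1]
      exact hu
    · exact ⟨1, one_pos, fun h => absurd h hp⟩
  choose d hd0 hd using hd
  refine ⟨l, ∏ p, d p, Finset.prod_pos fun p _ => hd0 p, fun γ hγ => ?_, fun i i' h => ?_⟩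
  · have h1 := hval γ
    have h2 : (f : Module.Dual ℚ (ι → ℚ)) (cast γ) = 0 :=
      (Submodule.mem_dualAnnihilator _).1 f.2 _ (Submodule.subset_span ⟨γ, hγ, rfl⟩)
    rw [h2, mul_zero] at h1
    exact_mod_cast h1
  · have h1 := hval (ed i i')
    have h2 : ∑ j, l j * ed i i' j = l i - l i' := by
      unfold ed
      simp [mul_sub, Finset.sum_sub_distrib, Pi.single_apply]
    rw [h2, h, sub_self, Int.cast_zero] at h1
    have h3 : (f : Module.Dual ℚ (ι → ℚ)) (cast (ed i i')) = 0 := by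
      rcases mul_eq_zero.1 h1.symm with h4 | h4
      · exact absurd h4 (by exact_mod_cast hb.ne')
      · exact h4
    have h4 : cast (ed i i') ∈ W := by
      by_contra hcon
      exact hfs i i' hcon h3
    obtain ⟨k, hk⟩ : d (i, i') ∣ ∏ p, d p := Finset.dvd_prod_of_mem _ (Finset.mem_univ _)
    rw [hk]
    have h5 : ((d (i, i') * k : ℕ) : ℤ) • ed i i' = (k : ℤ) • ((d (i, i') : ℤ) • ed i i') := by
      rw [smul_smul]
      congr 1
      push_cast
      ring
    rw [h5]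
    exact AddSubgroup.zsmul_mem _ (hd (i, i') h4) _

/-- **Lattices of relations of bounded degree.** -/
theorem lat (ι : Type) [Fintype ι] [DecidableEq ι] (D : ℕ) : ∃ M n : ℕ, 0 < M ∧
    ∀ (G : Type) [CommGroup G] (lam : ι → G), ∃ l : ι → ℕ, (∀ i, l i ≤ n) ∧
      (∀ α β : ι → ℕ, ∑ i, α i ≤ D → ∑ i, β i = ∑ i, α i → ∏ i, lam i ^ α i = ∏ i, lam i ^ β i →
        ∑ i, l i * α i = ∑ i, l i * β i) ∧
      ∀ i i', l i = l i' → lam i ^ M = lam i' ^ M := by
  classical
  let Box : Finset (ι → ℤ) := Fintype.piFinset fun _ => Finset.Icc (-(D : ℤ)) D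
  choose l d hd hl hs using fun Λ : Set (ι → ℤ) => exists_form Λ
  let b : Set (ι → ℤ) → ℕ := fun Λ => 2 * ∑ i, (l Λ i).natAbs
  refine ⟨∏ Λ ∈ Box.powerset, d (Λ : Set (ι → ℤ)), ∑ Λ ∈ Box.powerset, b (Λ : Set (ι → ℤ)),
    Finset.prod_pos fun Λ _ => hd _, fun G _ lam => ?_⟩
  let Λ : Finset (ι → ℤ) := Box.filter fun γ => ∑ i, γ i = 0 ∧ ∏ i, lam i ^ γ i = 1
  have hΛ : Λ ∈ Box.powerset := Finset.mem_powerset.2 (Finset.filter_subset _ _)
  have hrel : ∀ γ ∈ AddSubgroup.closure (Λ : Set (ι → ℤ)), ∏ i, lam i ^ γ i = 1 := by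
    intro γ hγ
    induction hγ using AddSubgroup.closure_induction with
    | mem γ hγ => exact (Finset.mem_filter.1 (Finset.mem_coe.1 hγ)).2.2
    | zero => simp
    | add a b _ _ ha hb =>
      simp only [Pi.add_apply, zpow_add, Finset.prod_mul_distrib]
      rw [ha, hb, one_mul]
    | neg a _ ha =>
      simp only [Pi.neg_apply, zpow_neg, Finset.prod_inv_distrib]
      rw [ha, inv_one]
  set l0 := l (Λ : Set (ι → ℤ)) with hl0
  obtain ⟨c, hc, hcb⟩ : ∃ c : ℕ, (∀ i, 0 ≤ (c : ℤ) + l0 i) ∧ ∀ i, (c : ℤ) + l0 i ≤ b (Λ : Set (ι → ℤ)) := by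
    have h1 : ∀ i, (l0 i).natAbs ≤ ∑ i, (l0 i).natAbs := fun i =>
      Finset.single_le_sum (f := fun i => (l0 i).natAbs) (fun _ _ => Nat.zero_le _)
        (Finset.mem_univ i)
    refine ⟨∑ i, (l0 i).natAbs, fun i => ?_, fun i => ?_⟩
    · have := h1 i
      omega
    · have h2 := h1 i
      have h3 : b (Λ : Set (ι → ℤ)) = 2 * ∑ i, (l0 i).natAbs := rfl
      rw [h3]
      omega
  refine ⟨fun i => ((c : ℤ) + l0 i).toNat, fun i => ?_, fun α β hα hβ h => ?_, fun i i' h => ?_⟩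
  · have h1 : b (Λ : Set (ι → ℤ)) ≤ ∑ Λ ∈ Box.powerset, b (Λ : Set (ι → ℤ)) :=
      Finset.single_le_sum (f := fun Λ : Finset (ι → ℤ) => b (Λ : Set (ι → ℤ)))
        (fun _ _ => Nat.zero_le _) hΛ
    have h2 := hcb i
    beta_reduce
    omega
  · have h1 : (fun i => (α i : ℤ) - β i) ∈ Λ := by
      refine Finset.mem_filter.2 ⟨?_, ?_, ?_⟩
      · refine Fintype.mem_piFinset.2 fun i => Finset.mem_Icc.2 ?_
        have h2 : α i ≤ ∑ i, α i := Finset.single_le_sum (f := α) (fun _ _ => Nat.zero_le _)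
          (Finset.mem_univ i)
        have h3 : β i ≤ ∑ i, β i := Finset.single_le_sum (f := β) (fun _ _ => Nat.zero_le _)
          (Finset.mem_univ i)
        omega
      · rw [Finset.sum_sub_distrib, sub_eq_zero]
        exact_mod_cast hβ.symm
      · have h2 : ∀ i, lam i ^ ((α i : ℤ) - β i) = lam i ^ α i * (lam i ^ β i)⁻¹ := by
          intro i
          rw [zpow_sub, zpow_natCast, zpow_natCast]
        rw [Finset.prod_congr rfl fun i _ => h2 i, Finset.prod_mul_distrib,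
          Finset.prod_inv_distrib, h, mul_inv_cancel]
    have h2 := hl (Λ : Set (ι → ℤ)) _ (Finset.mem_coe.2 h1)
    have h3 : ∀ γ : ι → ℕ, ((∑ i, ((c : ℤ) + l0 i).toNat * γ i : ℕ) : ℤ) =
        c * ∑ i, (γ i : ℤ) + ∑ i, l0 i * γ i := by
      intro γ
      rw [Nat.cast_sum, Finset.mul_sum, ← Finset.sum_add_distrib]
      refine Finset.sum_congr rfl fun i _ => ?_
      rw [Nat.cast_mul, Int.toNat_of_nonneg (hc i)]
      ring
    have h4 : ((∑ i, ((c : ℤ) + l0 i).toNat * α i : ℕ) : ℤ) =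
        ((∑ i, ((c : ℤ) + l0 i).toNat * β i : ℕ) : ℤ) := by
      rw [h3, h3]
      have h5 : (∑ i, (α i : ℤ)) = ∑ i, (β i : ℤ) := by exact_mod_cast hβ.symm
      have h6 : ∑ i, l0 i * ((α i : ℤ) - β i) = 0 := h2
      simp only [mul_sub, Finset.sum_sub_distrib] at h6
      rw [h5]
      linarith
    exact_mod_cast h4
  · have h1 : l0 i = l0 i' := by
      have h2 := hc i
      have h3 := hc i'
      have h4 : ((c : ℤ) + l0 i).toNat = ((c : ℤ) + l0 i').toNat := h
      omega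
    have h2 := hrel _ (hs (Λ : Set (ι → ℤ)) i i' h1)
    have h3 : ∏ j, lam j ^ ((d (Λ : Set (ι → ℤ)) : ℤ) • ed i i') j =
        lam i ^ d (Λ : Set (ι → ℤ)) * (lam i' ^ d (Λ : Set (ι → ℤ)))⁻¹ := by
      unfold ed
      simp only [Pi.smul_apply, Pi.sub_apply, smul_eq_mul, mul_sub, zpow_sub,
        Finset.prod_mul_distrib, Finset.prod_inv_distrib, Pi.single_apply, mul_ite, mul_one,
        mul_zero]
      congr 1
      · rw [Finset.prod_eq_single i]
        · rw [if_pos rfl, zpow_natCast]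
        · intro j _ hj
          rw [if_neg hj, zpow_zero]
        · intro h
          exact absurd (Finset.mem_univ i) h
      · rw [Finset.prod_eq_single i']
        · rw [if_pos rfl, zpow_natCast]
        · intro j _ hj
          rw [if_neg hj, zpow_zero]
        · intro h
          exact absurd (Finset.mem_univ i') h
    rw [h3, mul_inv_eq_one] at h2
    obtain ⟨k, hk⟩ : d (Λ : Set (ι → ℤ)) ∣ ∏ Λ ∈ Box.powerset, d (Λ : Set (ι → ℤ)) :=
      Finset.dvd_prod_of_mem _ hΛ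
    rw [hk, pow_mul, pow_mul, h2]

end Pool.Agent.Q183.UE
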