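import Pool.Agent.Q183.UE.Tr
import Pool.Agent.Q183.UE.Lat

/-!
Sequences of points of quasi-projective varieties given by linear recurrences with constant
coefficients.
-/

set_option autoImplicit false

namespace Pool.Agent.Q183.UE

open Polynomial

variable {J I : Type}

/-- The relations `F (p) = 0`, `F ∈ FF`, between polynomials `p j`, `j ∈ J`, of degree at most `n`
over the field `E`, together with the condition that `Q (p)` is a monomial, imply that the part
`(p (φ i))` of the polynomials is a constant point in homogeneous coordinates, or that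
`G (p ∘ φ) = 0` for `G ∈ GG`. -/
def GmJ {K : Type} [Field K] (n : ℕ) (φ : I → J) (FF : Set (MvPolynomial J K)) (Q : MvPolynomial J K)
    (GG : Set (MvPolynomial I K)) (E : Type) [Field E] [Algebra K E] : Prop :=
  ∀ p : J → Polynomial E, (∀ j, (p j).natDegree ≤ n) → (∀ F ∈ FF, MvPolynomial.aeval p F = 0) →
    (∃ (c : E) (k : ℕ), c ≠ 0 ∧ MvPolynomial.aeval p Q = C c * X ^ k) →
    (∀ i j m n, (p (φ i)).coeff m * (p (φ j)).coeff n = (p (φ j)).coeff m * (p (φ i)).coeff n) ∨
    ∀ G ∈ GG, MvPolynomial.aeval (fun i => p (φ i)) G = 0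

theorem aeval_smul_form {K : Type} [Field K] {J : Type} {G : MvPolynomial J K} {e : ℕ}
    (hG : G.IsHomogeneous e) (b : K) (v : J → K) :
    MvPolynomial.aeval (fun j => b * v j) G = b ^ e * MvPolynomial.aeval v G := by
  classical
  rw [MvPolynomial.aeval_def, MvPolynomial.aeval_def, MvPolynomial.eval₂_eq, MvPolynomial.eval₂_eq,
    Finset.mul_sum]
  refine Finset.sum_congr rfl fun α hα => ?_
  have h1 := hG (MvPolynomial.mem_support_iff.1 hα)
  rw [Finsupp.weight_apply, Finsupp.sum] at h1
  have h2 : ∑ i ∈ α.support, α i = e := by simpa using h1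
  have h3 : ∏ i ∈ α.support, (b * v i) ^ α i = b ^ e * ∏ i ∈ α.support, v i ^ α i := by
    rw [← h2, ← Finset.prod_pow_eq_pow_sum, ← Finset.prod_mul_distrib]
    exact Finset.prod_congr rfl fun i _ => mul_pow _ _ _
  rw [h3]
  ring

theorem eval_aeval_poly {K : Type} [Field K] {J : Type} (p : J → K[X]) (F : MvPolynomial J K) (s : K) :
    (MvPolynomial.aeval p F).eval s = MvPolynomial.aeval (fun j => (p j).eval s) F := by
  rw [MvPolynomial.aeval_def, MvPolynomial.aeval_def, ← coe_evalRingHom, MvPolynomial.hom_eval₂]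
  congr 1
  ext c
  simp

/-- the constant curves of a polynomial family -/
theorem coeff_par {K : Type} [Field K] {J : Type} {p : J → K[X]}
    (h : ∀ i j m n, (p i).coeff m * (p j).coeff n = (p j).coeff m * (p i).coeff n) (i j : J) (m : ℕ)
    (s : K) : (p i).coeff m * (p j).eval s = (p j).coeff m * (p i).eval s := by
  set n := max (p i).natDegree (p j).natDegree + 1 with hn
  rw [eval_eq_sum_range' (n := n) (by omega), eval_eq_sum_range' (n := n) (by omega),
    Finset.mul_sum, Finset.mul_sum]
  refine Finset.sum_congr rfl fun k _ => ?_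
  linear_combination s ^ k * h i j m k

theorem eval_par {K : Type} [Field K] {J : Type} {p : J → K[X]}
    (h : ∀ i j m n, (p i).coeff m * (p j).coeff n = (p j).coeff m * (p i).coeff n) (i j : J)
    (s s' : K) : (p i).eval s * (p j).eval s' = (p j).eval s * (p i).eval s' := by
  set n := max (p i).natDegree (p j).natDegree + 1 with hn
  rw [eval_eq_sum_range' (p := p i) (x := s) (n := n) (by omega),
    eval_eq_sum_range' (p := p j) (x := s) (n := n) (by omega), Finset.sum_mul, Finset.sum_mul]
  refine Finset.sum_congr rfl fun k _ => ?_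
  linear_combination s ^ k * coeff_par h i j k s'

/-- the core: exponential polynomials -/
theorem core {K : Type} [Field K] [CharZero K] {ι : Type} [Fintype ι] {D M n : ℕ} {φ : I → J}
    {FF : Set (MvPolynomial J K)} {Q : MvPolynomial J K} {GG : Set (MvPolynomial I K)}
    (hFF : ∀ F ∈ FF, ∃ e, e ≤ D ∧ F.IsHomogeneous e) (hGG : ∀ G ∈ GG, ∃ e, G.IsHomogeneous e)
    {q : ℕ} (hq : q ≤ D) (hQ : Q.IsHomogeneous q) (h : GmJ n φ FF Q GG K)
    (lam : ι → Kˣ) (P : ι → J → K[X]) (hPn : ∀ i j, (P i j).natDegree ≤ n) (l : ι → ℕ)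
    (hln : ∀ i, l i ≤ n)
    (hl : ∀ α β : ι → ℕ, ∑ i, α i ≤ D → ∑ i, β i = ∑ i, α i →
      ∏ i, lam i ^ α i = ∏ i, lam i ^ β i → ∑ i, l i * α i = ∑ i, l i * β i)
    (hM : ∀ i i', l i = l i' → lam i ^ M = lam i' ^ M)
    (hF : ∀ F ∈ FF, ∀ t : ℕ, MvPolynomial.aeval (cv P (t : K) fun i => (lam i : K) ^ t) F = 0)
    {c : K} (hc : c ≠ 0) (μ : Kˣ)
    (hQx : ∀ t : ℕ, MvPolynomial.aeval (cv P (t : K) fun i => (lam i : K) ^ t) Q = c * (μ : K) ^ t)
    (t : ℕ) {G : MvPolynomial I K} (hG : G ∈ GG)
    (hne : MvPolynomial.aeval (fun i => cv P (t : K) (fun i => (lam i : K) ^ t) (φ i)) G ≠ 0)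
    (i j : I) :
    cv P (t : K) (fun i => (lam i : K) ^ t) (φ i) *
        cv P ((t + M : ℕ) : K) (fun i => (lam i : K) ^ (t + M)) (φ j) =
      cv P (t : K) (fun i => (lam i : K) ^ t) (φ j) *
        cv P ((t + M : ℕ) : K) (fun i => (lam i : K) ^ (t + M)) (φ i) := by
  classical
  set x : J → K := cv P (t : K) fun i => (lam i : K) ^ t with hx
  by_cases hx0 : ∀ i, x (φ i) = 0
  · rw [hx0, hx0, zero_mul, zero_mul]
  push Not at hx0
  obtain ⟨j0, hj0⟩ := hx0
  -- the first curve
  let y1 : ι → K[X] := fun i => C ((lam i : K) ^ t)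
  let p1 : J → K[X] := cv P (X : K[X]) y1
  have hy1 : ∀ α : ι → ℕ, ∏ i, y1 i ^ α i = C (((∏ i, lam i ^ α i : Kˣ) : K) ^ t) := by
    intro α
    simp only [y1]
    rw [Units.coe_prod, ← Finset.prod_pow, map_prod]
    refine Finset.prod_congr rfl fun i _ => ?_
    rw [← map_pow, Units.val_pow_eq_pow_val, ← pow_mul, ← pow_mul, mul_comm]
  have hp1 : ∀ (s : K) (j : J), (p1 j).eval s = ∑ i, (P i j).eval s * (lam i : K) ^ t := by
    intro s j
    simp only [p1, cv, y1]
    rw [eval_finsetSum]
    refine Finset.sum_congr rfl fun i _ => ?_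
    rw [eval_mul, eval_C, aeval_X_left_apply]
  have hp1t : ∀ j, (p1 j).eval (t : K) = x j := by
    intro j
    rw [hp1, hx]
    rfl
  have hp1F : ∀ F ∈ FF, MvPolynomial.aeval p1 F = 0 := by
    intro F hFm
    obtain ⟨e, -, he⟩ := hFF F hFm
    obtain ⟨u, -, hu⟩ := transfer lam P he 0 1 (fun t => by rw [hF F hFm t, zero_mul]) y1
      (fun α β _ _ h => by rw [hy1, hy1, h])
    rw [hu, map_zero, zero_mul]
  have hp1Q : ∃ (c' : K) (k : ℕ), c' ≠ 0 ∧ MvPolynomial.aeval p1 Q = C c' * X ^ k := by
    obtain ⟨u, hu0, hu⟩ := transfer lam P hQ c μ hQx y1 (fun α β _ _ h => by rw [hy1, hy1, h])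
    obtain ⟨α, -, hα⟩ := hu0 hc
    refine ⟨c * ((∏ i, lam i ^ α i : Kˣ) : K) ^ t, 0, mul_ne_zero hc (pow_ne_zero _ (Units.ne_zero _)),
      ?_⟩
    rw [hu, hα, hy1, pow_zero, mul_one, map_mul]
    rfl
  have hp1G : MvPolynomial.aeval (fun i => p1 (φ i)) G ≠ 0 := by
    intro h0
    apply hne
    have h1 := congrArg (eval (t : K)) h0
    rw [eval_aeval_poly, eval_zero] at h1
    simp only [hp1t] at h1
    exact h1
  have hp1n : ∀ j, (p1 j).natDegree ≤ n := by
    intro j
    refine natDegree_sum_le_of_forall_le _ _ fun i _ => ?_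
    rw [aeval_X_left_apply]
    exact (natDegree_mul_C_le _ _).trans (hPn i j)
  have hc1 := (h p1 hp1n hp1F hp1Q).resolve_right fun h0 => hp1G (h0 G hG)
  have hpar1 : ∀ (s : K) (i j : I), (p1 (φ i)).eval s * x (φ j) = (p1 (φ j)).eval s * x (φ i) := by
    intro s i j
    have h1 := eval_par (p := fun i => p1 (φ i)) hc1 i j s (t : K)
    simp only [hp1t] at h1
    exact h1
  -- the parts of the curve
  let V : ℕ → J → K[X] := fun m j => ∑ i with l i = m, P i j * C ((lam i : K) ^ t)
  have hV : ∀ (m : ℕ) (i j : I), V m (φ i) * C (x (φ j)) = V m (φ j) * C (x (φ i)) := by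
    intro m i j
    have hj0' : p1 (φ j0) ≠ 0 := by
      intro h0
      apply hj0
      rw [← hp1t, h0, eval_zero]
    rw [← sub_eq_zero]
    have key : (V m (φ i) * C (x (φ j)) - V m (φ j) * C (x (φ i))) * p1 (φ j0) = 0 := by
      apply Polynomial.funext
      intro s
      rw [eval_mul, eval_zero]
      by_cases hs : (p1 (φ j0)).eval s = 0
      · rw [hs, mul_zero]
      · have hmul : ∀ j, (p1 (φ j)).eval s = ((p1 (φ j0)).eval s / x (φ j0)) * x (φ j) := by
          intro j
          have h1 := hpar1 s j j0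
          rw [div_mul_eq_mul_div, eq_div_iff hj0]
          exact h1
        set b := (p1 (φ j0)).eval s / x (φ j0) with hb
        have hb0 : b ≠ 0 := div_ne_zero hs hj0
        -- the second curve
        let y2 : ι → K[X] := fun i => C ((lam i : K) ^ t) * X ^ l i
        let p2 : J → K[X] := cv P (C s : K[X]) y2
        have hy2 : ∀ α : ι → ℕ, ∏ i, y2 i ^ α i =
            C (((∏ i, lam i ^ α i : Kˣ) : K) ^ t) * X ^ (∑ i, l i * α i) := by
          intro α
          rw [← hy1, ← Finset.prod_pow_eq_pow_sum, ← Finset.prod_mul_distrib]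
          refine Finset.prod_congr rfl fun i _ => ?_
          simp only [y2, y1]
          rw [mul_pow, ← pow_mul]
        have haC : ∀ i j, aeval (C s : K[X]) (P i j) = C ((P i j).eval s) := by
          intro i j
          rw [← algebraMap_eq, aeval_algebraMap_apply, coe_aeval_eq_eval]
        have hy2' : ∀ (e : ℕ), e ≤ D → ∀ α β : ι → ℕ, ∑ i, α i = e → ∑ i, β i = e →
            ∏ i, lam i ^ α i = ∏ i, lam i ^ β i → ∏ i, y2 i ^ α i = ∏ i, y2 i ^ β i := by
          intro e he α β hα hβ h
          rw [hy2, hy2, h, hl α β (by omega) (by omega) h]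
        have hp2F : ∀ F ∈ FF, MvPolynomial.aeval p2 F = 0 := by
          intro F hFm
          obtain ⟨e, heD, he⟩ := hFF F hFm
          obtain ⟨u, -, hu⟩ := transfer lam P he 0 1 (fun t => by rw [hF F hFm t, zero_mul]) y2
            (hy2' e heD)
          rw [hu, map_zero, zero_mul]
        have hp2Q : ∃ (c' : K) (k : ℕ), c' ≠ 0 ∧ MvPolynomial.aeval p2 Q = C c' * X ^ k := by
          obtain ⟨u, hu0, hu⟩ := transfer lam P hQ c μ hQx y2 (hy2' q hq)
          obtain ⟨α, -, hα⟩ := hu0 hc
          refine ⟨c * ((∏ i, lam i ^ α i : Kˣ) : K) ^ t, ∑ i, l i * α i,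
            mul_ne_zero hc (pow_ne_zero _ (Units.ne_zero _)), ?_⟩
          rw [hu, hα, hy2, map_mul, mul_assoc]
          rfl
        have hp2 : ∀ j m, (p2 j).coeff m = (V m j).eval s := by
          intro j m
          simp only [p2, cv, y2, V]
          rw [finsetSum_coeff, eval_finsetSum, Finset.sum_filter]
          refine Finset.sum_congr rfl fun i _ => ?_
          rw [haC, ← mul_assoc, ← C_mul, coeff_C_mul, coeff_X_pow]
          by_cases hm : l i = m
          · rw [if_pos hm.symm, if_pos hm, mul_one, eval_mul, eval_C]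
          · rw [if_neg (Ne.symm hm), if_neg hm, mul_zero]
        have hp21 : ∀ j : I, (p2 (φ j)).eval 1 = b * x (φ j) := by
          intro j
          rw [← hmul, hp1]
          simp only [p2, cv, y2]
          rw [eval_finsetSum]
          refine Finset.sum_congr rfl fun i _ => ?_
          rw [haC, eval_mul, eval_mul, eval_C, eval_C, eval_pow, eval_X, one_pow, mul_one]
        have hp2G : MvPolynomial.aeval (fun i => p2 (φ i)) G ≠ 0 := by
          intro h0
          obtain ⟨e, he⟩ := hGG G hG
          have h1 := congrArg (eval (1 : K)) h0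
          rw [eval_aeval_poly, eval_zero, funext hp21, aeval_smul_form he] at h1
          rcases mul_eq_zero.1 h1 with h2 | h2
          · exact pow_ne_zero _ hb0 h2
          · exact hne h2
        have hp2n : ∀ j, (p2 j).natDegree ≤ n := by
          intro j
          refine natDegree_sum_le_of_forall_le _ _ fun i _ => ?_
          rw [haC, ← mul_assoc, ← C_mul]
          exact (natDegree_C_mul_X_pow_le _ _).trans (hln i)
        have hc2 := (h p2 hp2n hp2F hp2Q).resolve_right fun h0 => hp2G (h0 G hG)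
        have h1 := coeff_par (p := fun i => p2 (φ i)) hc2 i j m (1 : K)
        rw [hp21, hp21, hp2, hp2] at h1
        rw [eval_sub, eval_mul, eval_mul, eval_C, eval_C]
        have h2 : (V m (φ i)).eval s * x (φ j) - (V m (φ j)).eval s * x (φ i) = 0 := by
          have h3 : b * ((V m (φ i)).eval s * x (φ j) - (V m (φ j)).eval s * x (φ i)) = 0 := by
            linear_combination h1
          exact (mul_eq_zero.1 h3).resolve_left hb0
        rw [h2, zero_mul]
    exact (mul_eq_zero.1 key).resolve_right hj0'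
  -- the end
  let κ : ℕ → K := fun m => if hm : ∃ i, l i = m then (lam hm.choose : K) ^ M else 0
  have hκ : ∀ i, κ (l i) = (lam i : K) ^ M := by
    intro i
    have hm : ∃ i', l i' = l i := ⟨i, rfl⟩
    simp only [κ]
    rw [dif_pos hm]
    have h1 := hM _ _ hm.choose_spec
    have h2 := congrArg (fun z : Kˣ => (z : K)) h1
    simpa using h2
  have hend : ∀ j, cv P ((t + M : ℕ) : K) (fun i => (lam i : K) ^ (t + M)) j =
      ∑ m ∈ Finset.univ.image l, κ m * (V m j).eval ((t + M : ℕ) : K) := by
    intro j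
    have h1 : cv P ((t + M : ℕ) : K) (fun i => (lam i : K) ^ (t + M)) j =
        ∑ i, κ (l i) * ((P i j).eval ((t + M : ℕ) : K) * (lam i : K) ^ t) := by
      unfold cv
      refine Finset.sum_congr rfl fun i _ => ?_
      beta_reduce
      rw [hκ, coe_aeval_eq_eval, pow_add]
      ring
    rw [h1, ← Finset.sum_fiberwise_of_maps_to (g := l) (t := Finset.univ.image l)
      (fun i _ => Finset.mem_image_of_mem l (Finset.mem_univ i))]
    refine Finset.sum_congr rfl fun m _ => ?_
    simp only [V]
    rw [eval_finsetSum, Finset.mul_sum]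
    refine Finset.sum_congr rfl fun i hi => ?_
    rw [(Finset.mem_filter.1 hi).2, eval_mul, eval_C]
  rw [hend, hend, Finset.mul_sum, Finset.mul_sum]
  refine Finset.sum_congr rfl fun m _ => ?_
  have h1 := congrArg (eval ((t + M : ℕ) : K)) (hV m i j)
  rw [eval_mul, eval_mul, eval_C, eval_C] at h1
  linear_combination -(κ m) * h1

end Pool.Agent.Q183.UE
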