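import Pool.Agent.Q183.UE.Main

/-!
Sequences of points of quasi-projective varieties given by linear recurrences with constant
coefficients: the main theorem over algebraically closed fields.
-/

set_option autoImplicit false

namespace Pool.Agent.Q183.UE

open Polynomial

theorem sum_pad {K : Type} [Field K] {q R : ℕ} (hq : q ≤ R) (f : Fin q → K) :
    ∑ i : Fin R, (if h : (i : ℕ) < q then f ⟨i, h⟩ else 0) = ∑ i, f i := by
  classical
  rw [Fin.sum_univ_eq_sum_range (fun n => if h : n < q then f ⟨n, h⟩ else 0) R]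
  have h1 : ∑ i : Fin q, f i = ∑ i : Fin q, (fun n => if h : n < q then f ⟨n, h⟩ else 0) (i : ℕ) := by
    refine Finset.sum_congr rfl fun i _ => ?_
    simp only
    rw [dif_pos i.2]
  rw [h1, Fin.sum_univ_eq_sum_range (fun n => if h : n < q then f ⟨n, h⟩ else 0) q]
  symm
  refine Finset.sum_subset (fun n hn => ?_) fun n _ hn => ?_
  · have := Finset.mem_range.1 hn
    exact Finset.mem_range.2 (by omega)
  · rw [dif_neg]
    intro h
    exact hn (Finset.mem_range.2 h)

theorem exp_rep {K : Type} [Field K] [IsAlgClosed K] [CharZero K] {R : ℕ} {g : ℕ → K}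
    (h : ∃ (q : ℕ) (a : ℕ → K), q ≤ R ∧ a 0 ≠ 0 ∧ a q ≠ 0 ∧
      ∀ m, ∑ k ∈ Finset.range (q + 1), a k * g (m + k) = 0) :
    ∃ (lam : Fin R → Kˣ) (P : Fin R → K[X]), (∀ i, (P i).natDegree ≤ R) ∧
      ∀ t : ℕ, g t = ∑ i, (P i).eval (t : K) * (lam i : K) ^ t := by
  classical
  obtain ⟨q, a, hq, h0, h1, h⟩ := h
  let p : K[X] := ∑ k ∈ Finset.range (q + 1), C (a k) * X ^ k
  have hpc : ∀ m, p.coeff m = if m ≤ q then a m else 0 := by
    intro m
    simp only [p]
    rw [finsetSum_coeff]
    by_cases hm : m ≤ q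
    · rw [if_pos hm, Finset.sum_eq_single m]
      · rw [coeff_C_mul, coeff_X_pow, if_pos rfl, mul_one]
      · intro k _ hk
        rw [coeff_C_mul, coeff_X_pow, if_neg (Ne.symm hk), mul_zero]
      · intro h
        exact absurd (Finset.mem_range.2 (by omega)) h
    · rw [if_neg hm]
      refine Finset.sum_eq_zero fun k hk => ?_
      have := Finset.mem_range.1 hk
      rw [coeff_C_mul, coeff_X_pow, if_neg (by omega), mul_zero]
  have hd : p.natDegree = q := by
    refine natDegree_eq_of_le_of_coeff_ne_zero ?_ ?_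
    · rw [natDegree_le_iff_coeff_eq_zero]
      intro m hm
      rw [hpc, if_neg (by omega)]
    · rw [hpc, if_pos le_rfl]
      exact h1
  obtain ⟨lam, P, hl, hPd, hP⟩ := exp_rep' q p g hd (by rw [hpc, if_pos (Nat.zero_le _)]; exact h0) (by
    funext t
    rw [aeval_sh, hd, Pi.zero_apply, ← h t]
    refine Finset.sum_congr rfl fun k hk => ?_
    have := Finset.mem_range.1 hk
    rw [hpc, if_pos (by omega)])
  refine ⟨fun i => if h : (i : ℕ) < q then Units.mk0 (lam ⟨i, h⟩) (hl _) else 1,
    fun i => if h : (i : ℕ) < q then P ⟨i, h⟩ else 0, fun i => ?_, fun t => ?_⟩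
  · beta_reduce
    by_cases hi : (i : ℕ) < q
    · rw [dif_pos hi, natDegree_le_iff_coeff_eq_zero]
      exact fun m hm => hPd _ m (by omega)
    · rw [dif_neg hi, natDegree_zero]
      exact Nat.zero_le _
  rw [hP t, ← sum_pad hq]
  refine Finset.sum_congr rfl fun i _ => ?_
  beta_reduce
  by_cases hi : (i : ℕ) < q
  · rw [dif_pos hi, dif_pos hi, dif_pos hi, Units.val_mk0]
  · rw [dif_neg hi, dif_neg hi, dif_neg hi, eval_zero, zero_mul]

/-- **Constant coefficient recurrences on quasi-projective varieties.** -/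
theorem exp_main (J : Type) [Fintype J] (D R : ℕ) : ∃ M n : ℕ, 0 < M ∧
    ∀ (K : Type) [Field K] [IsAlgClosed K] [CharZero K] (I : Type) (φ : I → J)
      (FF : Set (MvPolynomial J K)) (GG : Set (MvPolynomial I K)) (Q : MvPolynomial J K),
    (∀ F ∈ FF, ∃ e, e ≤ D ∧ F.IsHomogeneous e) → (∀ G ∈ GG, ∃ e, G.IsHomogeneous e) →
    (∃ q, q ≤ D ∧ Q.IsHomogeneous q) → GmJ n φ FF Q GG K →
    ∀ (l : ℕ), (Fintype.card J * R) ^ D + 1 ≤ l → ∀ (x : ℕ → J → K),
    (∀ j, CFin R l fun t => x t j) → (∀ t, t < l → ∀ F ∈ FF, MvPolynomial.aeval (x t) F = 0) →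
    ∀ (c μ : K), c ≠ 0 → μ ≠ 0 → (∀ t, t < l → MvPolynomial.aeval (x t) Q = c * μ ^ t) →
    ∀ t, t + M < l → (∃ G ∈ GG, MvPolynomial.aeval (fun i => x t (φ i)) G ≠ 0) →
    ∀ i j, x t (φ i) * x (t + M) (φ j) = x t (φ j) * x (t + M) (φ i) := by
  classical
  obtain ⟨M, n, hM, hlat⟩ := lat (J × Fin R) D
  refine ⟨M, max n R, hM, fun K _ _ _ I φ FF GG Q hFF hGG hQ h l hl x hrec hF c μ hc hμ hQx t ht hG i j => ?_⟩
  obtain ⟨q, hq, hQ⟩ := hQ
  obtain ⟨G, hG, hne⟩ := hG
  rcases Nat.eq_zero_or_pos R with hR | hR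
  · subst hR
    have h1 : ∀ j, x t j = 0 := by
      intro j
      obtain ⟨q, a, hq0, h0, -, h⟩ := hrec j
      have hq0' : q = 0 := by omega
      subst hq0'
      have h1 := h t (by omega)
      simp only [zero_add, Finset.sum_range_one, Nat.add_zero] at h1
      exact (mul_eq_zero.1 h1).resolve_left h0
    rw [h1, h1, zero_mul, zero_mul]
  · have hJ : 0 < Fintype.card J := Fintype.card_pos_iff.2 ⟨φ i⟩
    -- the infinite sequences
    choose q' a g hqR ha0 haq hgx hg using fun j => (hrec j).extend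
    have hbnd : ∀ e, e ≤ D → (Fintype.card J * R) ^ e + 1 ≤ l := by
      intro e he
      have h1 : (Fintype.card J * R) ^ e ≤ (Fintype.card J * R) ^ D :=
        Nat.pow_le_pow_right (Nat.mul_pos hJ hR) he
      omega
    have hgx' : ∀ t, t < l → (fun j => g j t) = x t := fun t ht => funext fun j => hgx j t ht
    have hgrec : ∀ j, ∃ (q : ℕ) (a : ℕ → K), q ≤ R ∧ a q ≠ 0 ∧
        ∀ m, ∑ k ∈ Finset.range (q + 1), a k * g j (m + k) = 0 := fun j =>
      ⟨q' j, a j, hqR j, haq j, hg j⟩
    have hgF : ∀ F ∈ FF, ∀ t, MvPolynomial.aeval (fun j => g j t) F = 0 := by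
      intro F hFm t
      obtain ⟨e, heD, he⟩ := hFF F hFm
      have h1 := rel_ext hgrec he 0 1 (hbnd e heD) (fun t ht => by
        rw [hgx' t ht, hF t ht F hFm, zero_mul]) t
      rwa [zero_mul] at h1
    have hgQ : ∀ t, MvPolynomial.aeval (fun j => g j t) Q = c * μ ^ t :=
      rel_ext hgrec hQ c μ (hbnd q hq) fun t ht => by rw [hgx' t ht, hQx t ht]
    -- the representation
    choose lam P hPd hP using fun j => exp_rep (R := R) (g := g j) ⟨q' j, a j, hqR j, ha0 j, haq j, hg j⟩
    let lam' : J × Fin R → Kˣ := fun i => lam i.1 i.2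
    let P' : J × Fin R → J → K[X] := fun i j => if i.1 = j then P i.1 i.2 else 0
    have hcv : ∀ t : ℕ, (cv P' (t : K) fun i => (lam' i : K) ^ t) = fun j => g j t := by
      intro t
      funext j
      unfold cv
      rw [Fintype.sum_prod_type, Finset.sum_eq_single j]
      · rw [hP]
        refine Finset.sum_congr rfl fun k _ => ?_
        simp only [P', lam']
        rw [if_pos trivial, coe_aeval_eq_eval]
      · intro j' _ hj'
        refine Finset.sum_eq_zero fun k _ => ?_
        simp only [P']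
        rw [if_neg hj', map_zero, zero_mul]
      · intro h
        exact absurd (Finset.mem_univ j) h
    obtain ⟨l0, hln, hl0, hl1⟩ := hlat Kˣ lam'
    have key := core hFF hGG hq hQ h lam' P' (fun i j => by
        simp only [P']
        split_ifs
        · exact (hPd _ _).trans (le_max_right _ _)
        · rw [natDegree_zero]
          exact Nat.zero_le _) l0 (fun i => (hln i).trans (le_max_left _ _)) hl0 hl1
      (fun F hFm t => by rw [hcv]; exact hgF F hFm t) hc (Units.mk0 μ hμ)
      (fun t => by rw [hcv, Units.val_mk0]; exact hgQ t) t hG (by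
        rw [hcv]
        have h1 : (fun i => (fun j => g j t) (φ i)) = fun i => x t (φ i) := by
          funext i
          exact hgx _ t (by omega)
        rw [h1]
        exact hne) i j
    rw [hcv, hcv] at key
    simp only at key
    rw [hgx _ t (by omega), hgx _ t (by omega), hgx _ _ ht, hgx _ _ ht] at key
    exact key

end Pool.Agent.Q183.UE
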