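import Pool.Agent.Q183.UE.Exp

/-!
Polynomial relations between sequences given by linear recurrences with constant coefficients: a
relation which holds on a long enough interval holds everywhere.
-/

set_option autoImplicit false

namespace Pool.Agent.Q183.UE

open Polynomial
open scoped Pointwise

variable {K : Type} [Field K]

/-- A sequence in a space of dimension at most `n` which is stable under the shift vanishes if its
first `n` members vanish. -/
theorem van_window {W : Submodule K (ℕ → K)} [FiniteDimensional K W] {n : ℕ}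
    (hn : Module.finrank K W ≤ n) (hsh : ∀ w ∈ W, sh K w ∈ W) {w : ℕ → K} (hw : w ∈ W)
    (h0 : ∀ t, t < n → w t = 0) : ∀ t, w t = 0 := by
  classical
  let T : W →ₗ[K] W := (sh K).toLinearMap.restrict hsh
  have hT : ∀ (k t : ℕ), (((T ^ k) ⟨w, hw⟩ : W) : ℕ → K) t = w (t + k) := by
    intro k
    induction k with
    | zero => intro t; rfl
    | succ k ih =>
      intro t
      rw [pow_succ', Module.End.mul_apply]
      change (((T ^ k) ⟨w, hw⟩ : W) : ℕ → K) (t + 1) = _
      rw [ih]
      congr 1
      omega
  have hch : ∀ t, ∑ k ∈ Finset.range (T.charpoly.natDegree + 1), T.charpoly.coeff k * w (t + k) = 0 := by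
    intro t
    have h1 := T.aeval_self_charpoly
    rw [aeval_eq_sum_range] at h1
    have h2 := congrArg (fun z : W →ₗ[K] W => ((z ⟨w, hw⟩ : W) : ℕ → K) t) h1
    simp only [LinearMap.sum_apply, LinearMap.smul_apply, LinearMap.zero_apply] at h2
    rw [← show ((0 : W) : ℕ → K) t = 0 from rfl, ← h2]
    have h3 : ∀ (s : Finset ℕ) (g : ℕ → W), ((∑ k ∈ s, g k : W) : ℕ → K) t =
        ∑ k ∈ s, ((g k : W) : ℕ → K) t := by
      intro s g
      rw [Submodule.coe_sum, Finset.sum_apply]
    rw [h3]
    refine Finset.sum_congr rfl fun k _ => ?_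
    rw [Submodule.coe_smul, Pi.smul_apply, hT, smul_eq_mul]
  set m := T.charpoly.natDegree with hm
  have hmn : m ≤ n := by
    rw [hm, LinearMap.charpoly_natDegree]
    exact hn
  have hlead : T.charpoly.coeff m = 1 := T.charpoly_monic
  intro t
  induction t using Nat.strong_induction_on with
  | _ t ih =>
    rcases Nat.lt_or_ge t n with h1 | h1
    · exact h0 t h1
    · obtain ⟨s, rfl⟩ := Nat.exists_eq_add_of_le' (hmn.trans h1)
      have h2 := hch s
      rw [Finset.sum_range_succ, hlead, one_mul, Finset.sum_eq_zero, zero_add] at h2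
      · exact h2
      · intro k hk
        have := Finset.mem_range.1 hk
        rw [ih (s + k) (by omega), mul_zero]

theorem aeval_seq {J : Type} (x : J → ℕ → K) (F : MvPolynomial J K) (t : ℕ) :
    (MvPolynomial.aeval x F) t = MvPolynomial.aeval (fun j => x j t) F := by
  have h1 := MvPolynomial.map_aeval x (Pi.evalRingHom (fun _ : ℕ => K) t) F
  change (Pi.evalRingHom (fun _ : ℕ => K) t) (MvPolynomial.aeval x F) = _
  rw [h1]
  rfl

/-- values of forms at members of a space of sequences -/
theorem form_mem {J : Type} [Fintype J] {V : Submodule K (ℕ → K)} {x : J → ℕ → K}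
    (hx : ∀ j, x j ∈ V) {F : MvPolynomial J K} {e : ℕ} (hF : F.IsHomogeneous e) :
    MvPolynomial.aeval x F ∈ V ^ e := by
  classical
  rw [MvPolynomial.aeval_def, MvPolynomial.eval₂_eq']
  refine Submodule.sum_mem _ fun α hα => ?_
  have h1 : ∀ s : Finset J, ∏ j ∈ s, x j ^ α j ∈ V ^ (∑ j ∈ s, α j) := by
    intro s
    induction s using Finset.induction_on with
    | empty =>
      rw [Finset.prod_empty, Finset.sum_empty, pow_zero]
      exact Submodule.one_le.1 le_rfl
    | insert j s hj ih =>
      rw [Finset.prod_insert hj, Finset.sum_insert hj, pow_add]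
      exact Submodule.mul_mem_mul (Submodule.pow_mem_pow V (hx j) _) ih
  have h2 : ∑ j, α j = e := by
    have h3 := hF (MvPolynomial.mem_support_iff.1 hα)
    rw [Finsupp.weight_apply, Finsupp.sum_fintype _ _ fun _ => by rw [zero_smul]] at h3
    simpa using h3
  have h3 := h1 Finset.univ
  rw [h2] at h3
  have h4 : (algebraMap K (ℕ → K)) (MvPolynomial.coeff α F) * ∏ j, x j ^ α j =
      MvPolynomial.coeff α F • ∏ j, x j ^ α j := (Algebra.smul_def _ _).symm
  rw [h4]
  exact Submodule.smul_mem _ _ h3

/-- the space of a family of sequences given by linear recurrences -/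
theorem exists_space {J : Type} [Fintype J] {R : ℕ} {x : J → ℕ → K}
    (hx : ∀ j, ∃ (q : ℕ) (a : ℕ → K), q ≤ R ∧ a q ≠ 0 ∧
      ∀ m, ∑ k ∈ Finset.range (q + 1), a k * x j (m + k) = 0) :
    ∃ s : Finset (ℕ → K), s.card ≤ Fintype.card J * R ∧
      (∀ w ∈ Submodule.span K (s : Set (ℕ → K)), sh K w ∈ Submodule.span K (s : Set (ℕ → K))) ∧
      ∀ j, x j ∈ Submodule.span K (s : Set (ℕ → K)) := by
  classical
  let g : J × Fin R → ℕ → K := fun p t => x p.1 (t + p.2)
  let s : Finset (ℕ → K) := Finset.univ.image g
  have hgs : ∀ p, g p ∈ Submodule.span K (s : Set (ℕ → K)) := fun p =>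
    Submodule.subset_span (Finset.mem_coe.2 (Finset.mem_image_of_mem g (Finset.mem_univ p)))
  have hR : ∀ j n, (fun t => x j (t + (n + R))) ∈ Submodule.span K (s : Set (ℕ → K)) ∧ True := by
    intro j n
    refine ⟨?_, trivial⟩
    induction n using Nat.strong_induction_on with
    | _ n ih =>
      obtain ⟨q, a, hq, h1, h⟩ := hx j
      have h2 : (fun t => x j (t + (n + R))) =
          ∑ k ∈ Finset.range q, (-(a k / a q)) • fun t => x j (t + (n + (R - q) + k)) := by
        funext t
        rw [Finset.sum_apply]
        have h3 := h (t + (n + (R - q)))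
        rw [Finset.sum_range_succ] at h3
        have h4 : t + (n + (R - q)) + q = t + (n + R) := by omega
        rw [h4] at h3
        have h5 : ∑ k ∈ Finset.range q, ((-(a k / a q)) • fun t => x j (t + (n + (R - q) + k))) t =
            -(∑ k ∈ Finset.range q, a k * x j (t + (n + (R - q)) + k)) / a q := by
          rw [neg_div, Finset.sum_div, ← Finset.sum_neg_distrib]
          refine Finset.sum_congr rfl fun k _ => ?_
          rw [Pi.smul_apply, smul_eq_mul]
          have h6 : t + (n + (R - q) + k) = t + (n + (R - q)) + k := by omega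
          rw [h6]
          field_simp
        rw [h5]
        field_simp
        linear_combination h3
      rw [h2]
      refine Submodule.sum_mem _ fun k hk => Submodule.smul_mem _ _ ?_
      have hk' := Finset.mem_range.1 hk
      rcases Nat.lt_or_ge (n + (R - q) + k) R with h3 | h3
      · exact hgs (j, ⟨n + (R - q) + k, h3⟩)
      · obtain ⟨n', hn'⟩ := Nat.exists_eq_add_of_le' h3
        rw [hn']
        exact ih n' (by omega)
  refine ⟨s, ?_, ?_, ?_⟩
  · refine Finset.card_image_le.trans ?_
    rw [Finset.card_univ, Fintype.card_prod, Fintype.card_fin]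
  · intro w hw
    induction hw using Submodule.span_induction with
    | mem w hw =>
      obtain ⟨⟨j, k⟩, -, rfl⟩ := Finset.mem_image.1 (Finset.mem_coe.1 hw)
      have h1 : sh K (g (j, k)) = fun t => x j (t + ((k : ℕ) + 1)) := by
        funext t
        change x j (t + 1 + k) = _
        congr 1
        omega
      rw [h1]
      rcases Nat.lt_or_ge ((k : ℕ) + 1) R with h2 | h2
      · exact hgs (j, ⟨k + 1, h2⟩)
      · have h3 : (k : ℕ) + 1 = 0 + R := by
          have := k.2
          omega
        rw [h3]
        exact (hR j 0).1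
    | zero => rw [map_zero]; exact Submodule.zero_mem _
    | add a b _ _ ha hb => rw [map_add]; exact Submodule.add_mem _ ha hb
    | smul c a _ ha => rw [map_smul]; exact Submodule.smul_mem _ _ ha
  · intro j
    rcases Nat.eq_zero_or_pos R with h1 | h1
    · have h2 := (hR j 0).1
      have h3 : (fun t => x j (t + (0 + R))) = x j := by
        funext t
        rw [h1]
        rfl
      rwa [h3] at h2
    · exact hgs (j, ⟨0, h1⟩)

/-- **Relations on long intervals.** -/
theorem rel_ext {J : Type} [Fintype J] {R : ℕ} {x : J → ℕ → K}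
    (hx : ∀ j, ∃ (q : ℕ) (a : ℕ → K), q ≤ R ∧ a q ≠ 0 ∧
      ∀ m, ∑ k ∈ Finset.range (q + 1), a k * x j (m + k) = 0) {F : MvPolynomial J K} {e : ℕ}
    (hF : F.IsHomogeneous e) (c μ : K) {l : ℕ} (hl : (Fintype.card J * R) ^ e + 1 ≤ l)
    (h : ∀ t, t < l → MvPolynomial.aeval (fun j => x j t) F = c * μ ^ t) :
    ∀ t, MvPolynomial.aeval (fun j => x j t) F = c * μ ^ t := by
  classical
  obtain ⟨s, hs, hsh, hxs⟩ := exists_space hx
  set V := Submodule.span K (s : Set (ℕ → K)) with hV
  let g : ℕ → K := fun t => μ ^ t
  let W : Submodule K (ℕ → K) := V ^ e ⊔ Submodule.span K {g}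
  have hVe : V ^ e = Submodule.span K ((s ^ e : Finset (ℕ → K)) : Set (ℕ → K)) := by
    rw [hV, Submodule.span_pow, Finset.coe_pow]
  have hfd1 : FiniteDimensional K (V ^ e : Submodule K (ℕ → K)) := by
    rw [hVe]
    exact FiniteDimensional.span_finset K _
  have hfd2 : FiniteDimensional K (Submodule.span K {g} : Submodule K (ℕ → K)) :=
    FiniteDimensional.span_singleton K g
  have hfd : FiniteDimensional K W := Submodule.finiteDimensional_sup _ _
  have hdim : Module.finrank K W ≤ l := by
    have h1 : Module.finrank K (V ^ e : Submodule K (ℕ → K)) ≤ (Fintype.card J * R) ^ e := by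
      rw [hVe]
      refine (finrank_span_finset_le_card _).trans ?_
      refine Finset.card_pow_le.trans ?_
      exact Nat.pow_le_pow_left hs e
    have h2 : Module.finrank K (Submodule.span K {g} : Submodule K (ℕ → K)) ≤ 1 :=
      (finrank_span_le_card ({g} : Set (ℕ → K))).trans (by simp)
    have h3 := Submodule.finrank_add_le_finrank_add_finrank (V ^ e) (Submodule.span K {g})
    exact h3.trans (by omega)
  have hWsh : ∀ w ∈ W, sh K w ∈ W := by
    intro w hw
    obtain ⟨u, hu, v, hv, rfl⟩ := Submodule.mem_sup.1 hw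
    rw [map_add]
    refine Submodule.add_mem _ (Submodule.mem_sup_left ?_) (Submodule.mem_sup_right ?_)
    · have h1 : Submodule.map (sh K).toLinearMap (V ^ e) ≤ V ^ e := by
        rw [Submodule.map_pow]
        refine pow_le_pow_left' ?_ e
        rintro _ ⟨w, hw, rfl⟩
        exact hsh w hw
      exact h1 ⟨u, hu, rfl⟩
    · obtain ⟨b, rfl⟩ := Submodule.mem_span_singleton.1 hv
      have h1 : sh K (b • g) = (b * μ) • g := by
        funext t
        change b * μ ^ (t + 1) = b * μ * μ ^ t
        rw [pow_succ]
        ring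
      rw [h1]
      exact Submodule.smul_mem _ _ (Submodule.mem_span_singleton_self g)
  have hmem : MvPolynomial.aeval x F - c • g ∈ W :=
    Submodule.sub_mem _ (Submodule.mem_sup_left (form_mem hxs hF))
      (Submodule.smul_mem _ _ (Submodule.mem_sup_right (Submodule.mem_span_singleton_self g)))
  have key := van_window hdim hWsh hmem (fun t ht => by
    rw [Pi.sub_apply, aeval_seq, h t ht]
    exact sub_self _)
  intro t
  have h1 := key t
  rw [Pi.sub_apply, aeval_seq] at h1
  exact sub_eq_zero.1 h1

end Pool.Agent.Q183.UE
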