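import Pool.Agent.Q183.UE.Span
import Pool.Agent.H327R2.SC.ExpPoly

/-!
Polynomial relations between exponential polynomials hold on a family of curves.
-/

set_option autoImplicit false

namespace Pool.Agent.Q183.UE

open Polynomial

variable {K : Type} [Field K] {ι J : Type} [Fintype ι]

/-- the point with parameters `a`, `y` of the family of curves of an exponential polynomial -/
noncomputable def cv (P : ι → J → K[X]) {A : Type} [CommRing A] [Algebra K A] (a : A) (y : ι → A) :
    J → A := fun j => ∑ i, aeval a (P i j) * y i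

/-- the generic point of the family -/
noncomputable def Ph (P : ι → J → K[X]) (j : J) : MvPolynomial ι K[X] :=
  ∑ i, MvPolynomial.C (P i j) * MvPolynomial.X i

theorem aeval_cv (P : ι → J → K[X]) {A : Type} [CommRing A] [Algebra K A] (a : A) (y : ι → A)
    (F : MvPolynomial J K) : MvPolynomial.aeval (cv P a y) F =
      ∑ α ∈ (MvPolynomial.aeval (Ph P) F).support,
        aeval a ((MvPolynomial.aeval (Ph P) F).coeff α) * ∏ i, y i ^ α i := by
  set H := MvPolynomial.aeval (Ph P) F with hH
  have h1 : MvPolynomial.eval₂Hom ((aeval a : K[X] →ₐ[K] A) : K[X] →+* A) y H =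
      MvPolynomial.aeval (cv P a y) F := by
    rw [hH, MvPolynomial.aeval_def, MvPolynomial.hom_eval₂, MvPolynomial.aeval_def]
    congr 1
    · ext c
      rw [RingHom.comp_apply, MvPolynomial.algebraMap_apply, MvPolynomial.coe_eval₂Hom,
        MvPolynomial.eval₂_C]
      exact (aeval a : K[X] →ₐ[K] A).commutes c
    · funext j
      change MvPolynomial.eval₂Hom ((aeval a : K[X] →ₐ[K] A) : K[X] →+* A) y (Ph P j) = cv P a y j
      unfold Ph cv
      rw [map_sum]
      refine Finset.sum_congr rfl fun i _ => ?_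
      rw [map_mul, MvPolynomial.coe_eval₂Hom, MvPolynomial.eval₂_C, MvPolynomial.eval₂_X]
      rfl
  rw [← h1, MvPolynomial.coe_eval₂Hom, MvPolynomial.eval₂_eq']
  rfl

theorem Ph_hom (P : ι → J → K[X]) {F : MvPolynomial J K} {e : ℕ} (hF : F.IsHomogeneous e)
    {α : ι →₀ ℕ} (hα : α ∈ (MvPolynomial.aeval (Ph P) F).support) : ∑ i, α i = e := by
  have h1 : (MvPolynomial.aeval (Ph P) F).IsHomogeneous (1 * e) := by
    rw [MvPolynomial.aeval_def]
    refine MvPolynomial.IsHomogeneous.eval₂ hF _ _ (fun r => ?_) fun j => ?_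
    · exact MvPolynomial.isHomogeneous_C _ _
    · unfold Ph
      refine MvPolynomial.IsHomogeneous.sum _ _ _ fun i _ => ?_
      have h2 := (MvPolynomial.isHomogeneous_C ι (P i j)).mul (MvPolynomial.isHomogeneous_X K[X] i)
      rwa [zero_add] at h2
  have h3 := h1 (MvPolynomial.mem_support_iff.1 hα)
  rw [Finsupp.weight_apply, Finsupp.sum_fintype _ _ fun _ => by rw [zero_smul]] at h3
  simpa using h3

/-- **Transfer of relations.** -/
theorem transfer [CharZero K] (lam : ι → Kˣ) (P : ι → J → K[X]) {F : MvPolynomial J K} {e : ℕ}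
    (hF : F.IsHomogeneous e) (c : K) (μ : Kˣ)
    (h : ∀ t : ℕ, MvPolynomial.aeval (cv P (t : K) fun i => (lam i : K) ^ t) F = c * (μ : K) ^ t)
    {A : Type} [CommRing A] [Algebra K A] (y : ι → A)
    (hy : ∀ α β : ι → ℕ, ∑ i, α i = e → ∑ i, β i = e → ∏ i, lam i ^ α i = ∏ i, lam i ^ β i →
      ∏ i, y i ^ α i = ∏ i, y i ^ β i) :
    ∃ u : A, (c ≠ 0 → ∃ α : ι → ℕ, ∑ i, α i = e ∧ u = ∏ i, y i ^ α i) ∧
      ∀ a : A, MvPolynomial.aeval (cv P a y) F = algebraMap K A c * u := by
  classical
  set H := MvPolynomial.aeval (Ph P) F with hH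
  let m : (ι →₀ ℕ) → Kˣ := fun α => ∏ i, lam i ^ α i
  let vals : Finset Kˣ := insert μ (H.support.image m)
  have hmaps : ∀ α ∈ H.support, m α ∈ vals := fun α hα =>
    Finset.mem_insert_of_mem (Finset.mem_image_of_mem m hα)
  let B : Kˣ → K[X] := fun ν => ∑ α ∈ H.support with m α = ν, H.coeff α
  have hB : ∀ ν ∈ vals, B ν = if ν = μ then C c else 0 := by
    have h1 := Pool.Agent.H327R2.SC.expPoly_indep vals (fun ν : Kˣ => (ν : K)) Units.val_injective
      (fun ν => ν.ne_zero) (fun ν => B ν - if ν = μ then C c else 0) (by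
      intro t
      have h2 := h t
      rw [aeval_cv, ← Finset.sum_fiberwise_of_maps_to hmaps] at h2
      have h3 : ∀ ν ∈ vals, ∑ α ∈ H.support with m α = ν,
          aeval (t : K) (H.coeff α) * ∏ i, ((lam i : K) ^ t) ^ α i =
          (B ν).eval (t : K) * (ν : K) ^ t := by
        intro ν _
        simp only [B]
        rw [eval_finsetSum, Finset.sum_mul]
        refine Finset.sum_congr rfl fun α hα => ?_
        rw [← (Finset.mem_filter.1 hα).2]
        congr 1
        simp only [m]
        rw [Units.coe_prod, ← Finset.prod_pow]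
        refine Finset.prod_congr rfl fun i _ => ?_
        rw [Units.val_pow_eq_pow_val, ← pow_mul, ← pow_mul, mul_comm]
      rw [Finset.sum_congr rfl h3] at h2
      have h4 : ∑ ν ∈ vals, (if ν = μ then C c else 0 : K[X]).eval (t : K) * (ν : K) ^ t =
          c * (μ : K) ^ t := by
        rw [Finset.sum_eq_single μ]
        · rw [if_pos rfl, eval_C]
        · intro ν _ hν
          rw [if_neg hν, eval_zero, zero_mul]
        · intro hμ
          exact absurd (Finset.mem_insert_self _ _) hμ
      simp only [eval_sub, sub_mul, Finset.sum_sub_distrib]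
      rw [h2, h4, sub_self])
    intro ν hν
    exact sub_eq_zero.1 (h1 ν hν)
  let Y : Kˣ → A := fun ν =>
    if hν : ∃ α : ι → ℕ, ∑ i, α i = e ∧ ∏ i, lam i ^ α i = ν then ∏ i, y i ^ hν.choose i else 0
  have hY : ∀ α : ι → ℕ, ∑ i, α i = e → Y (∏ i, lam i ^ α i) = ∏ i, y i ^ α i := by
    intro α hα
    have hex : ∃ β : ι → ℕ, ∑ i, β i = e ∧ ∏ i, lam i ^ β i = ∏ i, lam i ^ α i := ⟨α, hα, rfl⟩
    simp only [Y]
    rw [dif_pos hex]
    exact hy _ _ hex.choose_spec.1 hα hex.choose_spec.2
  refine ⟨Y μ, fun hc => ?_, fun a => ?_⟩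
  · have h1 : B μ ≠ 0 := by
      rw [hB μ (Finset.mem_insert_self _ _), if_pos rfl]
      exact C_ne_zero.2 hc
    obtain ⟨α, hα, -⟩ := Finset.exists_ne_zero_of_sum_ne_zero h1
    obtain ⟨h2, h3⟩ := Finset.mem_filter.1 hα
    refine ⟨fun i => α i, Ph_hom P hF h2, ?_⟩
    rw [← hY _ (Ph_hom P hF h2)]
    congr 1
    exact h3.symm
  · rw [aeval_cv, ← Finset.sum_fiberwise_of_maps_to hmaps]
    have h3 : ∀ ν ∈ vals, ∑ α ∈ H.support with m α = ν,
        aeval a (H.coeff α) * ∏ i, y i ^ α i = aeval a (B ν) * Y ν := by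
      intro ν _
      simp only [B]
      rw [map_sum, Finset.sum_mul]
      refine Finset.sum_congr rfl fun α hα => ?_
      obtain ⟨h4, h5⟩ := Finset.mem_filter.1 hα
      rw [← h5]
      congr 1
      exact (hY _ (Ph_hom P hF h4)).symm
    rw [Finset.sum_congr rfl h3, Finset.sum_eq_single μ]
    · rw [hB μ (Finset.mem_insert_self _ _), if_pos rfl, aeval_C]
    · intro ν hν hne
      rw [hB ν hν, if_neg hne, map_zero, zero_mul]
    · intro hμ
      exact absurd (Finset.mem_insert_self _ _) hμ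

end Pool.Agent.Q183.UE
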